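import Mathlib

/-!
# Bessel's inequality for nearly orthogonal signs, and patterns of signs

`x a m` is the value at the point `m` of the function with index `a`; the weights are `v m ≥ 0`.
-/

set_option autoImplicit false

namespace Pool.Agent.Y585.SP

open Finset

variable {α : Type*}

/-- Bessel's inequality for nearly orthogonal functions. -/
theorem bessel (I : Finset ℕ) (v : ℕ → ℝ) (hv : ∀ m ∈ I, 0 ≤ v m) (A : Finset α)
    (x : α → ℕ → ℝ) (V η : ℝ) (hV0 : 0 ≤ V) (hη : 0 ≤ η)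
    (hV : ∀ a ∈ A, ∑ m ∈ I, v m * (x a m * x a m) ≤ V)
    (horth : ∀ a ∈ A, ∀ b ∈ A, a ≠ b → |∑ m ∈ I, v m * (x a m * x b m)| ≤ η) (g : ℕ → ℝ) :
    ∑ a ∈ A, (∑ m ∈ I, v m * (g m * x a m)) ^ 2 ≤
      (V + A.card * η) * ∑ m ∈ I, v m * (g m) ^ 2 := by
  classical
  obtain ⟨c, hc⟩ : ∃ c : α → ℝ, ∀ a, c a = ∑ m ∈ I, v m * (g m * x a m) := ⟨_, fun _ => rfl⟩
  simp only [← hc]
  obtain ⟨Q, hQ⟩ : ∃ Q, Q = ∑ a ∈ A, (c a) ^ 2 := ⟨_, rfl⟩
  obtain ⟨G, hG⟩ : ∃ G, G = ∑ m ∈ I, v m * (g m) ^ 2 := ⟨_, rfl⟩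
  rw [← hQ, ← hG]
  have hQ0 : 0 ≤ Q := by rw [hQ]; exact sum_nonneg fun a _ => sq_nonneg _
  have hG0 : 0 ≤ G := by
    rw [hG]; exact sum_nonneg fun m hm => mul_nonneg (hv m hm) (sq_nonneg _)
  have hK0 : 0 ≤ V + A.card * η := by positivity
  have h1 : Q = ∑ m ∈ I, (Real.sqrt (v m) * g m) *
      (Real.sqrt (v m) * ∑ a ∈ A, c a * x a m) := by
    have e : ∀ m ∈ I, (Real.sqrt (v m) * g m) * (Real.sqrt (v m) * ∑ a ∈ A, c a * x a m) =
        ∑ a ∈ A, c a * (v m * (g m * x a m)) := by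
      intro m hm
      have hs : Real.sqrt (v m) * Real.sqrt (v m) = v m := Real.mul_self_sqrt (hv m hm)
      calc _ = (Real.sqrt (v m) * Real.sqrt (v m)) * g m * ∑ a ∈ A, c a * x a m := by ring
        _ = v m * g m * ∑ a ∈ A, c a * x a m := by rw [hs]
        _ = _ := by
          rw [mul_sum]
          exact sum_congr rfl fun a _ => by ring
    rw [sum_congr rfl e, sum_comm, hQ]
    refine sum_congr rfl fun a _ => ?_
    rw [← mul_sum, ← hc]
    ring
  have h2 : ∑ m ∈ I, (Real.sqrt (v m) * g m) ^ 2 = G := by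
    rw [hG]
    refine sum_congr rfl fun m hm => ?_
    rw [mul_pow, Real.sq_sqrt (hv m hm)]
  have h3 : ∑ m ∈ I, (Real.sqrt (v m) * ∑ a ∈ A, c a * x a m) ^ 2 ≤
      (V + A.card * η) * Q := by
    have e : ∀ m ∈ I, (Real.sqrt (v m) * ∑ a ∈ A, c a * x a m) ^ 2 =
        ∑ a ∈ A, ∑ b ∈ A, (c a * c b) * (v m * (x a m * x b m)) := by
      intro m hm
      rw [mul_pow, Real.sq_sqrt (hv m hm), sq, sum_mul_sum, mul_sum]
      refine sum_congr rfl fun a _ => ?_
      rw [mul_sum]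
      exact sum_congr rfl fun b _ => by ring
    rw [sum_congr rfl e, sum_comm]
    have e2 : ∀ a ∈ A, ∑ m ∈ I, ∑ b ∈ A, (c a * c b) * (v m * (x a m * x b m)) ≤
        V * (c a) ^ 2 + η * (|c a| * ∑ b ∈ A, |c b|) := by
      intro a ha
      rw [sum_comm]
      have e3 : ∀ b ∈ A, ∑ m ∈ I, (c a * c b) * (v m * (x a m * x b m)) ≤
          (if b = a then V * (c a) ^ 2 else 0) + η * (|c a| * |c b|) := by
        intro b hb
        rw [← mul_sum]
        by_cases hab : b = a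
        · rw [if_pos hab, hab]
          have h4 := mul_le_mul_of_nonneg_left (hV a ha) (mul_self_nonneg (c a))
          have h5 : 0 ≤ η * (|c a| * |c a|) := by positivity
          calc c a * c a * ∑ m ∈ I, v m * (x a m * x a m) ≤ c a * c a * V := h4
            _ = V * (c a) ^ 2 := by ring
            _ ≤ _ := by linarith
        · rw [if_neg hab, zero_add]
          have h4 := horth a ha b hb (Ne.symm hab)
          calc c a * c b * ∑ m ∈ I, v m * (x a m * x b m)
              ≤ |c a * c b * ∑ m ∈ I, v m * (x a m * x b m)| := le_abs_self _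
            _ = |c a| * |c b| * |∑ m ∈ I, v m * (x a m * x b m)| := by rw [abs_mul, abs_mul]
            _ ≤ |c a| * |c b| * η := mul_le_mul_of_nonneg_left h4 (by positivity)
            _ = _ := by ring
      refine (sum_le_sum e3).trans ?_
      rw [sum_add_distrib, sum_ite_eq' A a, if_pos ha, ← mul_sum, ← mul_sum]
    refine (sum_le_sum e2).trans ?_
    rw [sum_add_distrib, ← mul_sum, ← hQ, ← mul_sum, ← sum_mul]
    have h4 : (∑ a ∈ A, |c a|) * ∑ b ∈ A, |c b| ≤ A.card * Q := by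
      have h5 := sq_sum_le_card_mul_sum_sq (s := A) (f := fun a => |c a|)
      simp only [sq_abs] at h5
      rw [← sq, hQ]
      exact h5
    have h6 := mul_le_mul_of_nonneg_left h4 hη
    calc V * Q + η * ((∑ a ∈ A, |c a|) * ∑ b ∈ A, |c b|) ≤ V * Q + η * (A.card * Q) := by linarith
      _ = _ := by ring
  have h4 : Q ^ 2 ≤ G * ((V + A.card * η) * Q) := by
    have h5 := sum_mul_sq_le_sq_mul_sq I (fun m => Real.sqrt (v m) * g m)
      (fun m => Real.sqrt (v m) * ∑ a ∈ A, c a * x a m)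
    rw [← h1, h2] at h5
    exact h5.trans (mul_le_mul_of_nonneg_left h3 hG0)
  rcases hQ0.lt_or_eq with hQp | hQz
  · have h5 : Q * Q ≤ ((V + A.card * η) * G) * Q := by
      calc Q * Q = Q ^ 2 := by ring
        _ ≤ _ := h4
        _ = _ := by ring
    exact le_of_mul_le_mul_right h5 hQp
  · rw [← hQz]
    exact mul_nonneg hK0 hG0

variable {ι : Type*} [DecidableEq ι]

/-- The correlation sum of `g` with the product over `S`. -/
noncomputable def cor (I : Finset ℕ) (v : ℕ → ℝ) (x : α → ℕ → ℝ) (g : ℕ → ℝ)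
    (h : ι → α) (S : Finset ι) : ℝ :=
  ∑ m ∈ I, v m * (g m * ∏ i ∈ S, x (h i) m)

omit [DecidableEq ι] in
lemma ind_eq (J : Finset ι) (y ε : ι → ℝ) (hy : ∀ i, y i = 1 ∨ y i = -1)
    (hε : ∀ i, ε i = 1 ∨ ε i = -1) :
    ((∏ i ∈ J, if y i = ε i then (1 : ℝ) else 0)) =
      (1 / 2) ^ J.card * ∑ S ∈ J.powerset, ∏ i ∈ S, (ε i * y i) := by
  rw [← prod_one_add]
  have h1 : ((1 : ℝ) / 2) ^ J.card = ∏ _i ∈ J, (1 / 2 : ℝ) := by simp
  rw [h1, ← prod_mul_distrib]
  refine prod_congr rfl fun i _ => ?_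
  rcases hy i with h | h <;> rcases hε i with h' | h' <;> rw [h, h'] <;> norm_num

/-- The number of points with a given pattern, in terms of the correlation sums. -/
theorem pattern_err (I : Finset ℕ) (v : ℕ → ℝ) (x : α → ℕ → ℝ)
    (hx : ∀ a m, x a m = 1 ∨ x a m = -1) (g : ℕ → ℝ) (J : Finset ι) (h : ι → α) (ε : ι → ℝ)
    (hε : ∀ i, ε i = 1 ∨ ε i = -1) [DecidablePred fun m => ∀ i ∈ J, x (h i) m = ε i] :
    |∑ m ∈ I.filter (fun m => ∀ i ∈ J, x (h i) m = ε i), v m * g m -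
        (1 / 2) ^ J.card * ∑ m ∈ I, v m * g m|
      ≤ (1 / 2) ^ J.card * ∑ S ∈ J.powerset.erase ∅, |cor I v x g h S| := by
  classical
  have h1 : ∑ m ∈ I.filter (fun m => ∀ i ∈ J, x (h i) m = ε i), v m * g m =
      (1 / 2) ^ J.card * ∑ S ∈ J.powerset, (∏ i ∈ S, ε i) * cor I v x g h S := by
    rw [sum_filter]
    have e : ∀ m ∈ I, (if ∀ i ∈ J, x (h i) m = ε i then v m * g m else 0) =
        (1 / 2) ^ J.card * ∑ S ∈ J.powerset, (∏ i ∈ S, ε i) *
          (v m * (g m * ∏ i ∈ S, x (h i) m)) := by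
      intro m _
      have h2 := ind_eq J (fun i => x (h i) m) ε (fun i => hx _ _) hε
      have h3 : (∏ i ∈ J, if x (h i) m = ε i then (1 : ℝ) else 0) =
          if ∀ i ∈ J, x (h i) m = ε i then 1 else 0 := by
        rw [Finset.prod_ite_zero]
        simp
      rw [h3] at h2
      calc (if ∀ i ∈ J, x (h i) m = ε i then v m * g m else 0)
          = v m * g m * (if ∀ i ∈ J, x (h i) m = ε i then 1 else 0) := by
            split_ifs <;> simp
        _ = v m * g m * ((1 / 2) ^ J.card * ∑ S ∈ J.powerset, ∏ i ∈ S, (ε i * x (h i) m)) := by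
            rw [h2]
        _ = (1 / 2) ^ J.card * (v m * g m * ∑ S ∈ J.powerset, ∏ i ∈ S, (ε i * x (h i) m)) := by
            ring
        _ = _ := by
            rw [mul_sum]
            congr 1
            refine sum_congr rfl fun S _ => ?_
            rw [prod_mul_distrib]
            ring
    rw [sum_congr rfl e, ← mul_sum, sum_comm]
    congr 1
    refine sum_congr rfl fun S _ => ?_
    rw [← mul_sum]
    rfl
  have h2 : ∑ m ∈ I, v m * g m = (∏ i ∈ (∅ : Finset ι), ε i) * cor I v x g h ∅ := by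
    simp [cor]
  rw [h1, h2, ← add_sum_erase _ _ (empty_mem_powerset J), mul_add, add_sub_cancel_left,
    abs_mul, abs_of_nonneg (by positivity)]
  refine mul_le_mul_of_nonneg_left ?_ (by positivity)
  refine (abs_sum_le_sum_abs _ _).trans (sum_le_sum fun S _ => ?_)
  rw [abs_mul]
  have h3 : |∏ i ∈ S, ε i| = 1 := by
    rw [abs_prod]
    refine prod_eq_one fun i _ => ?_
    rcases hε i with h | h <;> rw [h] <;> simp
  rw [h3, one_mul]

/-- Near orthonormality of the functions `x a`, `a ∈ A`, with respect to the weights. -/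
structure Orth (I : Finset ℕ) (v : ℕ → ℝ) (x : α → ℕ → ℝ) (A : Finset α) (V η : ℝ) : Prop where
  pm : ∀ a m, x a m = 1 ∨ x a m = -1
  pos : ∀ m ∈ I, 0 ≤ v m
  tot : ∑ m ∈ I, v m = V
  eta : 0 ≤ η
  orth : ∀ a ∈ A, ∀ b ∈ A, a ≠ b → |∑ m ∈ I, v m * (x a m * x b m)| ≤ η

lemma Orth.sq {I : Finset ℕ} {v : ℕ → ℝ} {x : α → ℕ → ℝ} {A : Finset α} {V η : ℝ}
    (o : Orth I v x A V η) (a : α) (m : ℕ) : x a m * x a m = 1 := by
  rcases o.pm a m with h | h <;> rw [h] <;> norm_num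

lemma Orth.V0 {I : Finset ℕ} {v : ℕ → ℝ} {x : α → ℕ → ℝ} {A : Finset α} {V η : ℝ}
    (o : Orth I v x A V η) : 0 ≤ V := by
  rw [← o.tot]; exact sum_nonneg o.pos

/-- Bessel's inequality for the products with one free factor. -/
theorem Orth.bessel {I : Finset ℕ} {v : ℕ → ℝ} {x : α → ℕ → ℝ} {A : Finset α} {V η : ℝ}
    (o : Orth I v x A V η) (g : ℕ → ℝ) (h : ι → α) (S : Finset ι) (j : ι) (hj : j ∉ S) :
    ∑ a ∈ A, (cor I v x g (Function.update h j a) (insert j S)) ^ 2 ≤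
      (V + A.card * η) * ∑ m ∈ I, v m * (g m) ^ 2 := by
  have h1 := Pool.Agent.Y585.SP.bessel I v o.pos A x V η o.V0 o.eta
    (fun a _ => by
      rw [← o.tot]
      exact (sum_congr rfl fun m _ => by rw [o.sq, mul_one]).le) o.orth
    (fun m => g m * ∏ i ∈ S, x (h i) m)
  have h2 : ∀ m, (g m * ∏ i ∈ S, x (h i) m) ^ 2 = (g m) ^ 2 := by
    intro m
    rw [mul_pow, ← prod_pow]
    have : ∏ i ∈ S, x (h i) m ^ 2 = 1 := prod_eq_one fun i _ => by rw [_root_.sq, o.sq]
    rw [this, mul_one]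
  simp only [h2] at h1
  refine le_trans (le_of_eq (sum_congr rfl fun a _ => ?_)) h1
  congr 1
  unfold cor
  refine sum_congr rfl fun m _ => ?_
  rw [prod_insert hj, Function.update_self]
  have h3 : ∏ i ∈ S, x (Function.update h j a i) m = ∏ i ∈ S, x (h i) m := by
    refine prod_congr rfl fun i hi => ?_
    rw [Function.update_of_ne]
    rintro rfl
    exact hj hi
  rw [h3]
  ring

end Pool.Agent.Y585.SP
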