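import Pool.Agent.Y585.SP.A

/-!
# Counting tuples, and the choice of indices one after the other
-/

set_option autoImplicit false

namespace Pool.Agent.Y585.SP

open Finset

variable {α : Type*}

/-- Averaging over one coordinate. -/
lemma sum_update {k : ℕ} (A : Finset α) (j : Fin k) (F : (Fin k → α) → ℝ) :
    ∑ h ∈ Fintype.piFinset (fun _ : Fin k => A), ∑ a ∈ A, F (Function.update h j a) =
      A.card * ∑ h ∈ Fintype.piFinset (fun _ : Fin k => A), F h := by
  classical
  have h1 : ∑ p ∈ Fintype.piFinset (fun _ : Fin k => A) ×ˢ A, F (Function.update p.1 j p.2) =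
      ∑ p ∈ Fintype.piFinset (fun _ : Fin k => A) ×ˢ A, F p.1 := by
    refine sum_nbij' (fun p => (Function.update p.1 j p.2, p.1 j))
      (fun p => (Function.update p.1 j p.2, p.1 j)) ?_ ?_ ?_ ?_ ?_
    · intro p hp
      rw [mem_product, Fintype.mem_piFinset] at hp ⊢
      refine ⟨fun i => ?_, hp.1 j⟩
      by_cases hi : i = j
      · subst hi
        simpa using hp.2
      · simpa [Function.update_of_ne hi] using hp.1 i
    · intro p hp
      rw [mem_product, Fintype.mem_piFinset] at hp ⊢
      refine ⟨fun i => ?_, hp.1 j⟩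
      by_cases hi : i = j
      · subst hi
        simpa using hp.2
      · simpa [Function.update_of_ne hi] using hp.1 i
    · intro p _
      simp
    · intro p _
      simp
    · intro p _
      rfl
  rw [sum_product, sum_product] at h1
  rw [h1]
  simp only [sum_const, nsmul_eq_mul]
  rw [← mul_sum]

variable {I : Finset ℕ} {v : ℕ → ℝ} {x : α → ℕ → ℝ} {A : Finset α} {V η : ℝ}

theorem sum_sq_tuples (o : Orth I v x A V η) (g : ℕ → ℝ) {k : ℕ} (S : Finset (Fin k))
    (hS : S.Nonempty) :
    ∑ h ∈ Fintype.piFinset (fun _ : Fin k => A), (cor I v x g h S) ^ 2 ≤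
      (A.card : ℝ) ^ (k - 1) * ((V + A.card * η) * ∑ m ∈ I, v m * (g m) ^ 2) := by
  classical
  obtain ⟨j, hj⟩ := hS
  have hk : 1 ≤ k := by
    have := j.2
    omega
  have h1 := sum_update A j (fun h => (cor I v x g h S) ^ 2)
  have h2 : ∀ h ∈ Fintype.piFinset (fun _ : Fin k => A),
      ∑ a ∈ A, (cor I v x g (Function.update h j a) S) ^ 2 ≤
        (V + A.card * η) * ∑ m ∈ I, v m * (g m) ^ 2 := by
    intro h _
    have := o.bessel g h (S.erase j) j (notMem_erase j S)
    rwa [insert_erase hj] at this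
  have h3 := sum_le_sum h2
  rw [h1, sum_const, Fintype.card_piFinset, nsmul_eq_mul, prod_const, card_univ,
    Fintype.card_fin] at h3
  rcases Nat.eq_zero_or_pos A.card with hA | hA
  · have hA' : A = ∅ := card_eq_zero.1 hA
    have : Fintype.piFinset (fun _ : Fin k => A) = ∅ := by
      refine eq_empty_of_forall_notMem fun h hh => ?_
      have h4 := Fintype.mem_piFinset.1 hh j
      rw [hA'] at h4
      exact absurd h4 (notMem_empty _)
    rw [this, sum_empty]
    have hG : 0 ≤ ∑ m ∈ I, v m * (g m) ^ 2 :=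
      sum_nonneg fun m hm => mul_nonneg (o.pos m hm) (sq_nonneg _)
    have := o.V0
    have := o.eta
    positivity
  · have hA' : (0 : ℝ) < A.card := by exact_mod_cast hA
    have e : ((A.card ^ k : ℕ) : ℝ) = (A.card : ℝ) * (A.card : ℝ) ^ (k - 1) := by
      push_cast
      rw [← pow_succ']
      congr 1
      omega
    rw [e, mul_assoc] at h3
    exact le_of_mul_le_mul_left h3 hA'

/-- All patterns occur about equally often along the tuple `h`. -/
def Good (I : Finset ℕ) (v : ℕ → ℝ) (x : α → ℕ → ℝ) (g : ℕ → ℝ) (δ V : ℝ) {k : ℕ}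
    (h : Fin k → α) : Prop :=
  ∀ ε : Fin k → ℝ, (∀ i, ε i = 1 ∨ ε i = -1) →
    |∑ m ∈ I, (if ∀ i, x (h i) m = ε i then v m * g m else 0) -
      (1 / 2) ^ k * ∑ m ∈ I, v m * g m| ≤ δ * V

theorem count_bad (o : Orth I v x A V η) (hV : 0 < V) (hη : A.card * η ≤ V) (g : ℕ → ℝ)
    (hg : ∀ m, |g m| ≤ 1) {δ : ℝ} (hδ : 0 < δ) {k : ℕ}
    [DecidablePred fun h : Fin k → α => ¬ Good I v x g δ V h] :
    (((Fintype.piFinset (fun _ : Fin k => A)).filter fun h => ¬ Good I v x g δ V h).card : ℝ) ≤
      2 ^ (k + 1) / δ ^ 2 * (A.card : ℝ) ^ (k - 1) := by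
  classical
  set P := Fintype.piFinset (fun _ : Fin k => A) with hP
  have hG : ∑ m ∈ I, v m * (g m) ^ 2 ≤ V := by
    rw [← o.tot]
    refine sum_le_sum fun m hm => ?_
    have : (g m) ^ 2 ≤ 1 := by
      rw [← sq_abs]
      exact pow_le_one₀ (abs_nonneg _) (hg m)
    calc v m * (g m) ^ 2 ≤ v m * 1 := mul_le_mul_of_nonneg_left this (o.pos m hm)
      _ = v m := mul_one _
  have hG0 : 0 ≤ ∑ m ∈ I, v m * (g m) ^ 2 :=
    sum_nonneg fun m hm => mul_nonneg (o.pos m hm) (sq_nonneg _)
  -- a tuple which is not good has a large correlation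
  have h1 : (P.filter fun h => ¬ Good I v x g δ V h) ⊆
      ((univ : Finset (Fin k)).powerset.erase ∅).biUnion
        fun S => P.filter fun h => δ * V < |cor I v x g h S| := by
    intro h hh
    rw [mem_filter] at hh
    by_contra hcon
    apply hh.2
    intro ε hε
    have h2 : ∀ S ∈ (univ : Finset (Fin k)).powerset.erase ∅, |cor I v x g h S| ≤ δ * V := by
      intro S hS
      by_contra hlt
      apply hcon
      rw [mem_biUnion]
      exact ⟨S, hS, mem_filter.2 ⟨hh.1, not_le.1 hlt⟩⟩
    have h3 := pattern_err I v x o.pm g (univ : Finset (Fin k)) h ε hε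
    simp only [mem_univ, true_imp_iff, sum_filter] at h3
    rw [card_univ, Fintype.card_fin] at h3
    refine h3.trans ?_
    have h4 : ∑ S ∈ (univ : Finset (Fin k)).powerset.erase ∅, |cor I v x g h S| ≤
        2 ^ k * (δ * V) := by
      refine (sum_le_sum h2).trans ?_
      rw [sum_const, nsmul_eq_mul]
      refine mul_le_mul_of_nonneg_right ?_ (by positivity)
      have : ((univ : Finset (Fin k)).powerset.erase ∅).card ≤ 2 ^ k := by
        refine (card_erase_le).trans ?_
        rw [card_powerset, card_univ, Fintype.card_fin]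
      exact_mod_cast this
    calc (1 / 2) ^ k * ∑ S ∈ (univ : Finset (Fin k)).powerset.erase ∅, |cor I v x g h S|
        ≤ (1 / 2) ^ k * (2 ^ k * (δ * V)) := mul_le_mul_of_nonneg_left h4 (by positivity)
      _ = ((1 / 2) * 2) ^ k * (δ * V) := by rw [mul_pow]; ring
      _ = δ * V := by norm_num
  have h2 : ∀ S ∈ (univ : Finset (Fin k)).powerset.erase ∅,
      ((P.filter fun h => δ * V < |cor I v x g h S|).card : ℝ) ≤
        2 / δ ^ 2 * (A.card : ℝ) ^ (k - 1) := by
    intro S hS
    have hS' : S.Nonempty := nonempty_iff_ne_empty.2 (ne_of_mem_erase hS)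
    have h3 := sum_sq_tuples o g S hS'
    have h4 : ((P.filter fun h => δ * V < |cor I v x g h S|).card : ℝ) * (δ * V) ^ 2 ≤
        ∑ h ∈ P, (cor I v x g h S) ^ 2 := by
      rw [← nsmul_eq_mul, ← sum_const]
      refine (sum_le_sum fun h hh => ?_).trans
        (sum_le_sum_of_subset_of_nonneg (filter_subset _ _) fun h _ _ => sq_nonneg _)
      rw [mem_filter] at hh
      rw [← sq_abs (cor I v x g h S)]
      exact pow_le_pow_left₀ (by positivity) hh.2.le 2
    have h5 : (V + A.card * η) * ∑ m ∈ I, v m * (g m) ^ 2 ≤ 2 * V ^ 2 := by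
      calc _ ≤ (V + V) * V := mul_le_mul (by linarith) hG hG0 (by linarith)
        _ = 2 * V ^ 2 := by ring
    have h6 : ((P.filter fun h => δ * V < |cor I v x g h S|).card : ℝ) * (δ * V) ^ 2 ≤
        (A.card : ℝ) ^ (k - 1) * (2 * V ^ 2) :=
      h4.trans (h3.trans (mul_le_mul_of_nonneg_left h5 (by positivity)))
    have h7 : 2 / δ ^ 2 * (A.card : ℝ) ^ (k - 1) =
        ((A.card : ℝ) ^ (k - 1) * (2 * V ^ 2)) / (δ * V) ^ 2 := by
      field_simp
    rw [h7, le_div_iff₀ (by positivity)]
    exact h6
  calc (((P.filter fun h => ¬ Good I v x g δ V h).card : ℕ) : ℝ)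
      ≤ ((((univ : Finset (Fin k)).powerset.erase ∅).biUnion
        fun S => P.filter fun h => δ * V < |cor I v x g h S|).card : ℝ) := by
        exact_mod_cast card_le_card h1
    _ ≤ ∑ S ∈ (univ : Finset (Fin k)).powerset.erase ∅,
        ((P.filter fun h => δ * V < |cor I v x g h S|).card : ℝ) := by
        exact_mod_cast card_biUnion_le
    _ ≤ ∑ _S ∈ (univ : Finset (Fin k)).powerset.erase ∅, 2 / δ ^ 2 * (A.card : ℝ) ^ (k - 1) :=
        sum_le_sum h2
    _ ≤ 2 ^ k * (2 / δ ^ 2 * (A.card : ℝ) ^ (k - 1)) := by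
        rw [sum_const, nsmul_eq_mul]
        refine mul_le_mul_of_nonneg_right ?_ (by positivity)
        have : ((univ : Finset (Fin k)).powerset.erase ∅).card ≤ 2 ^ k := by
          refine (card_erase_le).trans ?_
          rw [card_powerset, card_univ, Fintype.card_fin]
        exact_mod_cast this
    _ = _ := by rw [pow_succ]; ring

/-- The next index. -/
theorem next_index (o : Orth I v x A V η) (hA : A.Nonempty) (g : ℕ → ℝ) {ι : Type*}
    [DecidableEq ι] (J : Finset ι) (h : ι → α) (j : ι) (hj : j ∉ J) :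
    ∃ a ∈ A, ∑ S ∈ J.powerset, |cor I v x g (Function.update h j a) (insert j S)| ≤
      2 ^ J.card * Real.sqrt ((V + A.card * η) * (∑ m ∈ I, v m * (g m) ^ 2) / A.card) := by
  classical
  obtain ⟨B, hB⟩ : ∃ B, B = (V + A.card * η) * (∑ m ∈ I, v m * (g m) ^ 2) := ⟨_, rfl⟩
  have hcard : (0 : ℝ) < A.card := by exact_mod_cast card_pos.2 hA
  have hB0 : 0 ≤ B := by
    rw [hB]
    have := o.V0
    have := o.eta
    have hG0 : 0 ≤ ∑ m ∈ I, v m * (g m) ^ 2 :=
      sum_nonneg fun m hm => mul_nonneg (o.pos m hm) (sq_nonneg _)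
    positivity
  have h1 : ∑ a ∈ A, (∑ S ∈ J.powerset, |cor I v x g (Function.update h j a) (insert j S)|) ^ 2 ≤
      (2 ^ J.card) ^ 2 * B := by
    have h2 : ∀ a ∈ A,
        (∑ S ∈ J.powerset, |cor I v x g (Function.update h j a) (insert j S)|) ^ 2 ≤
        2 ^ J.card * ∑ S ∈ J.powerset,
          (cor I v x g (Function.update h j a) (insert j S)) ^ 2 := by
      intro a _
      have := sq_sum_le_card_mul_sum_sq (s := J.powerset)
        (f := fun S => |cor I v x g (Function.update h j a) (insert j S)|)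
      simp only [sq_abs, card_powerset] at this
      push_cast at this
      exact this
    refine (sum_le_sum h2).trans ?_
    rw [← mul_sum, sum_comm]
    have h3 : ∀ S ∈ J.powerset, ∑ a ∈ A,
        (cor I v x g (Function.update h j a) (insert j S)) ^ 2 ≤ B := by
      intro S hS
      rw [hB]
      exact o.bessel g h S j fun hjS => hj (mem_powerset.1 hS hjS)
    calc 2 ^ J.card * ∑ S ∈ J.powerset, ∑ a ∈ A,
          (cor I v x g (Function.update h j a) (insert j S)) ^ 2
        ≤ 2 ^ J.card * ∑ _S ∈ J.powerset, B :=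
          mul_le_mul_of_nonneg_left (sum_le_sum h3) (by positivity)
      _ = _ := by
          rw [sum_const, nsmul_eq_mul, card_powerset]
          push_cast
          ring
  have h2 : ∃ a ∈ A,
      (∑ S ∈ J.powerset, |cor I v x g (Function.update h j a) (insert j S)|) ^ 2 ≤
        (2 ^ J.card) ^ 2 * (B / A.card) := by
    by_contra hcon
    push Not at hcon
    have h3 := sum_lt_sum_of_nonempty hA hcon
    rw [sum_const, nsmul_eq_mul] at h3
    have h4 : (A.card : ℝ) * ((2 ^ J.card) ^ 2 * (B / A.card)) = (2 ^ J.card) ^ 2 * B := by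
      field_simp
    rw [h4] at h3
    linarith
  obtain ⟨a, ha, h3⟩ := h2
  refine ⟨a, ha, ?_⟩
  rw [← hB]
  have h4 := Real.sqrt_le_sqrt h3
  rw [Real.sqrt_sq (sum_nonneg fun S _ => abs_nonneg _), Real.sqrt_mul (by positivity),
    Real.sqrt_sq (by positivity)] at h4
  exact h4

/-- One step of the choice of the indices. -/
lemma sum_step (I : Finset ℕ) (v : ℕ → ℝ) (x : α → ℕ → ℝ) (g : ℕ → ℝ) (k : ℕ) (h : ℕ → α)
    (a : α) :
    ∑ S ∈ (range (k + 1)).powerset.erase ∅, |cor I v x g (Function.update h k a) S| =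
      ∑ S ∈ (range k).powerset.erase ∅, |cor I v x g h S| +
      ∑ S ∈ (range k).powerset, |cor I v x g (Function.update h k a) (insert k S)| := by
  classical
  have h0 : ∀ S ∈ (range k).powerset, cor I v x g (Function.update h k a) S = cor I v x g h S := by
    intro S hS
    unfold cor
    refine sum_congr rfl fun m _ => ?_
    congr 2
    refine prod_congr rfl fun i hi => ?_
    rw [Function.update_of_ne]
    have := mem_range.1 (mem_powerset.1 hS hi)
    omega
  have h1 : ∑ S ∈ (range (k + 1)).powerset, |cor I v x g (Function.update h k a) S| =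
      ∑ S ∈ (range k).powerset, |cor I v x g (Function.update h k a) S| +
      ∑ S ∈ (range k).powerset, |cor I v x g (Function.update h k a) (insert k S)| := by
    rw [range_add_one, sum_powerset_insert (by simp)]
  have h2 := add_sum_erase (range (k + 1)).powerset
    (fun S => |cor I v x g (Function.update h k a) S|) (empty_mem_powerset _)
  have h3 := add_sum_erase (range k).powerset
    (fun S => |cor I v x g (Function.update h k a) S|) (empty_mem_powerset _)
  have h4 : ∑ S ∈ (range k).powerset.erase ∅, |cor I v x g (Function.update h k a) S| =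
      ∑ S ∈ (range k).powerset.erase ∅, |cor I v x g h S| :=
    sum_congr rfl fun S hS => by rw [h0 S (mem_of_mem_erase hS)]
  rw [← h4]
  linarith

/-- The choice of `k` indices. -/
theorem greedy (o : Orth I v x A V η) (hA : A.Nonempty) (g : ℕ → ℝ) (k : ℕ) :
    ∃ h : ℕ → α, (∀ i < k, h i ∈ A) ∧
      ∑ S ∈ (range k).powerset.erase ∅, |cor I v x g h S| ≤ (2 ^ k - 1) *
        Real.sqrt ((V + A.card * η) * (∑ m ∈ I, v m * (g m) ^ 2) / A.card) := by
  classical
  induction k with
  | zero =>
    obtain ⟨a₀, _⟩ := hA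
    exact ⟨fun _ => a₀, fun i hi => absurd hi (Nat.not_lt_zero i), by simp⟩
  | succ k ih =>
    obtain ⟨h, h1, h2⟩ := ih
    obtain ⟨a, ha, h3⟩ := next_index o hA g (range k) h k (by simp)
    rw [card_range] at h3
    refine ⟨Function.update h k a, ?_, ?_⟩
    · intro i hi
      by_cases hik : i = k
      · subst hik; simpa using ha
      · rw [Function.update_of_ne hik]; exact h1 i (by omega)
    · rw [sum_step]
      refine (add_le_add h2 h3).trans (le_of_eq ?_)
      rw [pow_succ]
      ring

end Pool.Agent.Y585.SP
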