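import Pool.Agent.Y585.SP.B

/-!
# Infinite sequences of indices
-/

set_option autoImplicit false

namespace Pool.Agent.Y585.SP

open Finset

/-- The total of `g` squared. -/
noncomputable def tot2 (I : Finset ℕ) (v : ℕ → ℝ) (g : ℕ → ℝ) : ℝ := ∑ m ∈ I, v m * (g m) ^ 2

/-- The state after `k` steps. -/
structure Stage (I : ℕ → Finset ℕ) (v : ℕ → ℝ) (x : ℕ → ℕ → ℝ) (g : ℕ → ℝ) (A : Set ℕ)
    (N₀ : Set ℕ) (δ : ℝ) (k : ℕ) (p : (ℕ → ℕ) × Set ℕ) : Prop where
  inf : p.2.Infinite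
  sub : p.2 ⊆ N₀
  mem : ∀ i < k, p.1 i ∈ A
  mono : ∀ i < k, ∀ j < k, i < j → p.1 i < p.1 j
  small : ∀ N ∈ p.2, ∑ S ∈ (range k).powerset.erase ∅, |cor (I N) v x g p.1 S| ≤
    δ * (1 - (1 / 2) ^ k) * tot2 (I N) v g

theorem stage_step {I : ℕ → Finset ℕ} {v : ℕ → ℝ} {x : ℕ → ℕ → ℝ} {g : ℕ → ℝ} {A : Set ℕ}
    {N₀ : Set ℕ} {δ d : ℝ} (hA : A.Infinite) (hδ : 0 < δ) (hd : 0 < d)
    (horth : ∀ B : Finset ℕ, ∀ η : ℝ, 0 < η → ∃ M : ℕ, ∀ N, M ≤ N →
      Orth (I N) v x B (∑ m ∈ I N, v m) (η * ∑ m ∈ I N, v m))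
    (hV : ∃ M : ℕ, ∀ N, M ≤ N → 0 < ∑ m ∈ I N, v m)
    (hg : ∀ N ∈ N₀, d * ∑ m ∈ I N, v m ≤ tot2 (I N) v g) (k : ℕ) (p : (ℕ → ℕ) × Set ℕ)
    (hp : Stage I v x g A N₀ δ k p) :
    ∃ a : ℕ, ∃ N₁ : Set ℕ, Stage I v x g A N₀ δ (k + 1) (Function.update p.1 k a, N₁) := by
  classical
  -- the number of candidates
  obtain ⟨n, hn⟩ : ∃ n : ℕ, (2 ^ (2 * k + 2)) ^ 2 / (δ ^ 2 * d) ≤ n := exists_nat_ge _
  have hn1 : 1 ≤ n + 1 := by omega
  -- candidates larger than all the previous indices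
  obtain ⟨t, ht⟩ : ∃ t : ℕ, ∀ i < k, p.1 i < t := by
    refine ⟨∑ i ∈ range k, (p.1 i + 1), fun i hi => ?_⟩
    have := single_le_sum (f := fun i => p.1 i + 1) (fun j _ => Nat.zero_le _) (mem_range.2 hi)
    omega
  have hA' : (A \ Set.Iio t).Infinite := hA.sdiff (Set.finite_Iio t)
  obtain ⟨B, hB, hBcard⟩ := hA'.exists_subset_card_eq (n + 1)
  have hBne : B.Nonempty := card_pos.1 (by omega)
  obtain ⟨M₁, hM₁⟩ := horth B (1 / (n + 1 : ℝ)) (by positivity)
  obtain ⟨M₂, hM₂⟩ := hV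
  -- the scales
  have hN : (p.2 \ Set.Iio (max M₁ M₂)).Infinite := hp.inf.sdiff (Set.finite_Iio _)
  have hex : ∀ N ∈ p.2 \ Set.Iio (max M₁ M₂), ∃ a ∈ B,
      ∑ S ∈ (range k).powerset, |cor (I N) v x g (Function.update p.1 k a) (insert k S)| ≤
        δ * (1 / 2) ^ (k + 1) * tot2 (I N) v g := by
    rintro N ⟨hN1, hN2⟩
    have hN2' : max M₁ M₂ ≤ N := not_lt.1 hN2
    have hNM1 : M₁ ≤ N := (le_max_left _ _).trans hN2'
    have hNM2 : M₂ ≤ N := (le_max_right _ _).trans hN2'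
    have o := hM₁ N hNM1
    have hVpos := hM₂ N hNM2
    obtain ⟨a, ha, h1⟩ := next_index o hBne g (range k) p.1 k (by simp)
    refine ⟨a, ha, h1.trans ?_⟩
    obtain ⟨V, hVdef⟩ : ∃ V, V = ∑ m ∈ I N, v m := ⟨_, rfl⟩
    obtain ⟨G, hGdef⟩ : ∃ G, G = tot2 (I N) v g := ⟨_, rfl⟩
    have hdG : d * V ≤ G := by rw [hVdef, hGdef]; exact hg N (hp.sub hN1)
    have hG0 : 0 ≤ G := by
      rw [hGdef]
      exact sum_nonneg fun m hm => mul_nonneg (o.pos m hm) (sq_nonneg _)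
    rw [← hVdef] at hVpos
    have hGdef' : ∑ m ∈ I N, v m * (g m) ^ 2 = G := hGdef.symm
    rw [hGdef', ← hVdef, ← hGdef, hBcard, card_range]
    have e1 : (V + ((n + 1 : ℕ) : ℝ) * (1 / (n + 1 : ℝ) * V)) * G / ((n + 1 : ℕ) : ℝ) =
        2 * V * G / (n + 1) := by
      push_cast
      field_simp
      ring
    rw [e1]
    have h2 : 2 * V * G / (n + 1) ≤ (δ / 2 ^ (2 * k + 1) * G) ^ 2 := by
      rw [div_le_iff₀ (by positivity)]
      have h3 : (2 ^ (2 * k + 2)) ^ 2 ≤ (n + 1) * (δ ^ 2 * d) := by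
        rw [div_le_iff₀ (by positivity)] at hn
        have : (0 : ℝ) ≤ δ ^ 2 * d := by positivity
        linarith
      have h4 : V ≤ G / d := by
        rw [le_div_iff₀ hd]; linarith
      have h5 : 2 * V * G ≤ 2 * (G / d) * G := by
        have := mul_le_mul_of_nonneg_right h4 hG0
        linarith
      refine h5.trans ?_
      have e2 : 2 * (G / d) * G = (2 / d) * G ^ 2 := by ring
      have e3 : (δ / 2 ^ (2 * k + 1) * G) ^ 2 * (n + 1) =
          (δ ^ 2 * (n + 1) / (2 ^ (2 * k + 1)) ^ 2) * G ^ 2 := by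
        rw [mul_pow, div_pow]; ring
      rw [e2, e3]
      refine mul_le_mul_of_nonneg_right ?_ (sq_nonneg _)
      rw [div_le_div_iff₀ hd (by positivity)]
      have e4 : ((2 : ℝ) ^ (2 * k + 2)) ^ 2 = 4 * (2 ^ (2 * k + 1)) ^ 2 := by
        rw [pow_succ 2 (2 * k + 1)]; ring
      rw [e4] at h3
      have h6 : (0 : ℝ) ≤ (2 ^ (2 * k + 1)) ^ 2 := by positivity
      nlinarith
    have h3 := Real.sqrt_le_sqrt h2
    rw [Real.sqrt_sq (by positivity)] at h3
    calc 2 ^ k * Real.sqrt (2 * V * G / (n + 1)) ≤ 2 ^ k * (δ / 2 ^ (2 * k + 1) * G) :=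
          mul_le_mul_of_nonneg_left h3 (by positivity)
      _ = δ * (1 / 2) ^ (k + 1) * G := by
          rw [show 2 * k + 1 = k + (k + 1) by ring, pow_add, one_div_pow]
          field_simp
  -- one candidate for infinitely many scales
  have hcov : p.2 \ Set.Iio (max M₁ M₂) ⊆ ⋃ a ∈ (B : Set ℕ),
      {N | N ∈ p.2 ∧ ∑ S ∈ (range k).powerset,
        |cor (I N) v x g (Function.update p.1 k a) (insert k S)| ≤
          δ * (1 / 2) ^ (k + 1) * tot2 (I N) v g} := by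
    intro N hN
    obtain ⟨a, ha, h1⟩ := hex N hN
    exact Set.mem_biUnion (Finset.mem_coe.2 ha) ⟨hN.1, h1⟩
  have hinf := hN.mono hcov
  have : ∃ a ∈ B, ({N | N ∈ p.2 ∧ ∑ S ∈ (range k).powerset,
        |cor (I N) v x g (Function.update p.1 k a) (insert k S)| ≤
          δ * (1 / 2) ^ (k + 1) * tot2 (I N) v g} : Set ℕ).Infinite := by
    by_contra hcon
    push Not at hcon
    apply hinf
    exact B.finite_toSet.biUnion fun a ha => hcon a (Finset.mem_coe.1 ha)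
  obtain ⟨a, ha, hainf⟩ := this
  have haA := hB (Finset.mem_coe.2 ha)
  refine ⟨a, _, hainf, fun N hN => hp.sub hN.1, ?_, ?_, ?_⟩
  · intro i hi
    by_cases hik : i = k
    · subst hik; simpa using haA.1
    · simp only [Function.update_of_ne hik]
      exact hp.mem i (by omega)
  · intro i hi j hj hij
    have hik : i ≠ k := by omega
    simp only [Function.update_of_ne hik]
    by_cases hjk : j = k
    · subst hjk
      simp only [Function.update_self]
      have h1 := ht i hij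
      have h2 : ¬ a < t := haA.2
      omega
    · simp only [Function.update_of_ne hjk]
      exact hp.mono i (by omega) j (by omega) hij
  · intro N hN
    simp only
    rw [sum_step]
    have h1 := hp.small N hN.1
    have h2 := hN.2
    refine (add_le_add h1 h2).trans (le_of_eq ?_)
    rw [pow_succ]
    ring

/-- An infinite sequence of indices whose patterns of signs are all frequent. -/
theorem infinite_choice {I : ℕ → Finset ℕ} {v : ℕ → ℝ} {x : ℕ → ℕ → ℝ} {g : ℕ → ℝ} {A : Set ℕ}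
    {N₀ : Set ℕ} {δ d : ℝ} (hA : A.Infinite) (hδ : 0 < δ) (hd : 0 < d) (hN₀ : N₀.Infinite)
    (horth : ∀ B : Finset ℕ, ∀ η : ℝ, 0 < η → ∃ M : ℕ, ∀ N, M ≤ N →
      Orth (I N) v x B (∑ m ∈ I N, v m) (η * ∑ m ∈ I N, v m))
    (hV : ∃ M : ℕ, ∀ N, M ≤ N → 0 < ∑ m ∈ I N, v m)
    (hg : ∀ N ∈ N₀, d * ∑ m ∈ I N, v m ≤ tot2 (I N) v g) :
    ∃ h : ℕ → ℕ, StrictMono h ∧ (∀ i, h i ∈ A) ∧ ∀ k, ∃ N₁ : Set ℕ, N₁.Infinite ∧ N₁ ⊆ N₀ ∧
      ∀ N ∈ N₁, ∑ S ∈ (range k).powerset.erase ∅, |cor (I N) v x g h S| ≤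
        δ * (1 - (1 / 2) ^ k) * tot2 (I N) v g := by
  classical
  have hstep := stage_step (I := I) (v := v) (x := x) (g := g) (A := A) (N₀ := N₀) (δ := δ)
    hA hδ hd horth hV hg
  choose! nxt N₁ hnxt using hstep
  have hbase : Stage I v x g A N₀ δ 0 (fun _ => 0, N₀) :=
    ⟨hN₀, subset_rfl, fun i hi => absurd hi (Nat.not_lt_zero i),
      fun i hi => absurd hi (Nat.not_lt_zero i), fun N _ => by simp⟩
  let st : ℕ → (ℕ → ℕ) × Set ℕ := fun k => Nat.rec (fun _ => 0, N₀)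
    (fun k p => (Function.update p.1 k (nxt k p), N₁ k p)) k
  have hst : ∀ k, Stage I v x g A N₀ δ k (st k) := by
    intro k
    induction k with
    | zero => exact hbase
    | succ k ih => exact hnxt k (st k) ih
  have hsucc : ∀ k, (st (k + 1)).1 = Function.update (st k).1 k (nxt k (st k)) := fun k => rfl
  have hstab : ∀ i k, i < k → (st k).1 i = (st (i + 1)).1 i := by
    intro i k hik
    induction k with
    | zero => exact absurd hik (Nat.not_lt_zero i)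
    | succ k ih =>
      rcases Nat.lt_succ_iff_lt_or_eq.1 hik with h | h
      · rw [hsucc k, Function.update_of_ne (by omega), ih h]
      · rw [h]
  refine ⟨fun i => (st (i + 1)).1 i, ?_, ?_, ?_⟩
  · refine strictMono_nat_of_lt_succ fun i => ?_
    have h1 := (hst (i + 2)).mono i (by omega) (i + 1) (by omega) (by omega)
    rwa [hstab i (i + 2) (by omega)] at h1
  · intro i
    exact (hst (i + 1)).mem i (by omega)
  · intro k
    refine ⟨(st k).2, (hst k).inf, (hst k).sub, fun N hN => ?_⟩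
    have h1 := (hst k).small N hN
    refine le_trans (le_of_eq (sum_congr rfl fun S hS => ?_)) h1
    congr 1
    unfold cor
    refine sum_congr rfl fun m _ => ?_
    congr 2
    refine prod_congr rfl fun i hi => ?_
    have : i < k := mem_range.1 (mem_powerset.1 (mem_of_mem_erase hS) hi)
    rw [hstab i k this]

end Pool.Agent.Y585.SP
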