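import Pool.Agent.Y666.SP.Stm2

set_option autoImplicit false

open Cardinal OrderDual

namespace Pool.Agent.Y585.SP

open Pool.Agent.Y666.SP

section
variable {α : Type}

theorem cd_mono {S T : Set α} (h : S ⊆ T) : cd S ≤ cd T := Cardinal.mk_le_mk_of_subset h

theorem cd_union_lt {κ : Cardinal.{0}} (hκ : ℵ₀ ≤ κ) {S T : Set α} (hS : cd S < κ)
    (hT : cd T < κ) : cd (S ∪ T) < κ :=
  (Cardinal.mk_union_le S T).trans_lt (Cardinal.add_lt_of_lt hκ hS hT)

theorem cd_of_union {κ : Cardinal.{0}} (hκ : ℵ₀ ≤ κ) {S T : Set α} (h : κ ≤ cd (S ∪ T))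
    (hS : cd S < κ) : κ ≤ cd T := by
  by_contra hT
  exact absurd h (not_le.2 (cd_union_lt hκ hS (not_le.1 hT)))

theorem nonempty_of_cd {κ : Cardinal.{0}} (hκ : ℵ₀ ≤ κ) {S : Set α} (h : κ ≤ cd S) :
    S.Nonempty := by
  rw [Set.nonempty_iff_ne_empty]
  rintro rfl
  have h0 : cd (∅ : Set α) = 0 := Cardinal.mk_eq_zero _
  rw [h0] at h
  exact absurd (hκ.trans h) (not_le.2 Cardinal.aleph0_pos)

theorem cd_iUnion_lt {κ : Cardinal.{0}} (hκ : ℵ₀ ≤ κ) {w : ℕ} (S : Fin w → Set α)
    (hS : ∀ j, cd (S j) < κ) (s : Finset (Fin w)) : cd (⋃ j ∈ s, S j) < κ := by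
  induction s using Finset.induction_on with
  | empty =>
    have h0 : cd (⋃ j ∈ (∅ : Finset (Fin w)), S j) = 0 := by
      have : (⋃ j ∈ (∅ : Finset (Fin w)), S j) = ∅ := by simp
      rw [this]; exact Cardinal.mk_eq_zero _
    rw [h0]
    exact Cardinal.aleph0_pos.trans_le hκ
  | insert a s _ ih =>
    rw [Finset.set_biUnion_insert]
    exact cd_union_lt hκ (hS a) ih

end

section
variable {α : Type} [PartialOrder α]

/-- Images of large sets under maps with antichain fibres are large. -/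
theorem cd_image {w : ℕ} (hw : Wd α w) {κ : Cardinal.{0}} (hκ : ℵ₀ ≤ κ) (Y : Set α) (f : α → α)
    (hf : ∀ x ∈ Y, ∀ y ∈ Y, f x = f y → ¬ x < y) (hY : κ ≤ cd Y) : κ ≤ cd (f '' Y) := by
  by_contra hlt
  rw [not_le] at hlt
  let F : Y → (f '' Y) := fun y => ⟨f y, y, y.2, rfl⟩
  have hfib : ∀ c : (f '' Y), Cardinal.mk {x : Y // F x = c} ≤ w := by
    intro c
    have h1 : Cardinal.mk {x : Y // F x = c} ≤ Cardinal.mk {x : α | x ∈ Y ∧ f x = c} := by
      refine Cardinal.mk_le_of_injective (f := fun x => ⟨x.1.1, x.1.2, ?_⟩) ?_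
      · exact congrArg Subtype.val x.2
      · intro a b hab
        have := congrArg Subtype.val hab
        exact Subtype.ext (Subtype.ext this)
    refine h1.trans ?_
    rw [Cardinal.mk_le_iff_forall_finset_subset_card_le]
    intro t ht
    apply hw
    intro a ha b hb hne hab
    obtain ⟨ha1, ha2⟩ := ht ha
    obtain ⟨hb1, hb2⟩ := ht hb
    exact hf a ha1 b hb1 (ha2.trans hb2.symm) (lt_of_le_of_ne hab hne)
  have h2 : cd Y = Cardinal.sum fun c : (f '' Y) => Cardinal.mk {x : Y // F x = c} := by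
    unfold cd
    rw [← Cardinal.mk_sigma]
    exact Cardinal.mk_congr (Equiv.sigmaFiberEquiv F).symm
  have h3 : cd Y ≤ cd (f '' Y) * w := by
    rw [h2]
    refine (Cardinal.sum_le_sum _ (fun _ => (w : Cardinal.{0})) hfib).trans ?_
    rw [Cardinal.sum_const']
    rfl
  have h4 : cd (f '' Y) * w < κ :=
    Cardinal.mul_lt_of_lt hκ hlt ((Cardinal.natCast_lt_aleph0 (n := w)).trans_le hκ)
  exact absurd hY (not_le.2 (h3.trans_lt h4))

variable {κ : Cardinal.{0}} {E : Set α}

theorem kll_sub {F G : KGerm κ E} (h : kll F G) : G.carrier ⊆ F.carrier := by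
  obtain ⟨p, hp, hpq⟩ := h
  intro q hq
  exact F.up p hp q (G.sub hq) (hpq q hq).le

end

theorem t_KCOI (h1 : S_KSTAR) (h2 : S_KLIM) (h3 : S_KBET) : S_KCOI := by
  intro α _ w hw κ hκ E G hG C f hB g hg z hz
  rcases h2 α κ E G hG g hg with ⟨x, hxB, hxg, hx⟩ | hR
  · -- the left case
    have hfact : ∀ y ∈ g.carrier, y ≤ x → y ∈ KBB G ∧ KSame G y x := by
      intro y hy hyx
      have key : ∀ h ∈ G, (y ∈ h.carrier ∨ ∀ q ∈ h.carrier, y < q) ∧
          (y ∈ h.carrier ↔ x ∈ h.carrier) := by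
        intro h hh
        rcases hG.ch g hg h hh with e | e | e
        · subst e
          exact ⟨Or.inl hy, iff_of_true hy hxg⟩
        · have hxh := hx h hh e
          have hlt : ∀ q ∈ h.carrier, x < q := (hxB.2 h hh).resolve_left hxh
          have hlt' : ∀ q ∈ h.carrier, y < q := fun q hq => hyx.trans_lt (hlt q hq)
          exact ⟨Or.inr hlt', iff_of_false (fun hyh => lt_irrefl y (hlt' y hyh)) hxh⟩
        · have hs := kll_sub e
          exact ⟨Or.inl (hs hy), iff_of_true (hs hy) (hs hxg)⟩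
      exact ⟨⟨g.sub hy, fun h hh => (key h hh).1⟩, fun h hh => (key h hh).2⟩
    by_contra hlt
    rw [not_le] at hlt
    obtain ⟨a, hag, hax, haz⟩ := g.dir x hxg z hz
    set A0 : Set α := {c | c ∈ C ∧ c ∈ g.carrier ∧ c ≤ a} with hA0
    have hA0sub : A0 ⊆ {c | c ∈ C ∧ c ∈ g.carrier ∧ c ≤ z} :=
      fun c hc => ⟨hc.1, hc.2.1, hc.2.2.trans haz⟩
    have hA0lt : cd A0 < κ := (cd_mono hA0sub).trans_lt hlt
    set K : Set α := {c | c ∈ C ∧ KSame G c x ∧ ¬ c ≤ a ∧ ¬ a ≤ c} with hK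
    have hclaim : ∀ a' ∈ g.carrier, a' ≤ a → κ ≤ cd {c | c ∈ K ∧ ¬ a' ≤ c} := by
      intro a' ha' haa
      have hYB : ∀ y ∈ {y | y ∈ g.carrier ∧ y ≤ a'}, y ∈ KBB G ∧ KSame G y x :=
        fun y hy => hfact y hy.1 (hy.2.trans (haa.trans hax))
      have hfY : κ ≤ cd (f '' {y | y ∈ g.carrier ∧ y ≤ a'}) :=
        cd_image hw hκ _ f (fun y hy y' hy' => hB.anti y (hYB y hy).1 y' (hYB y' hy').1)
          (g.large a' ha')
      have hsub : f '' {y | y ∈ g.carrier ∧ y ≤ a'} ⊆ A0 ∪ {c | c ∈ K ∧ ¬ a' ≤ c} := by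
        rintro c ⟨y, hy, rfl⟩
        have hyB := hYB y hy
        have hcC : f y ∈ C := hB.map y hyB.1
        have hcB : f y ∈ KBB G := hB.sub hcC
        have hsame := hB.same y hyB.1
        have hcg : f y ∈ g.carrier := (hsame g hg).2 hy.1
        have hcx : KSame G (f y) x := fun h hh => (hsame h hh).trans (hyB.2 h hh)
        by_cases hca : f y ≤ a
        · exact Or.inl ⟨hcC, hcg, hca⟩
        · have heq : y ≤ f y → f y ≤ a := by
            intro hle
            rcases hle.lt_or_eq with h | h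
            · exact absurd h (hB.anti y hyB.1 (f y) hcB (hB.fix _ hcC).symm)
            · rw [← h]; exact hy.2.trans haa
          refine Or.inr ⟨⟨hcC, hcx, hca, ?_⟩, ?_⟩
          · intro h
            exact hca (heq (hy.2.trans (haa.trans h)))
          · intro h
            exact hca (heq (hy.2.trans h))
      exact cd_of_union hκ (hfY.trans (cd_mono hsub)) hA0lt
    have hlarge : KLarge κ K := by
      refine ⟨?_, ?_, ?_⟩
      · obtain ⟨c, hc⟩ := nonempty_of_cd hκ (hclaim a hag le_rfl)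
        exact ⟨c, hc.1⟩
      · exact hB.chain.mono (fun c hc => hc.1)
      · intro d hd
        have hdg : d ∈ g.carrier := (hd.2.1 g hg).2 hxg
        obtain ⟨a', ha', had, haa⟩ := g.dir d hdg a hag
        refine (hclaim a' ha' haa).trans (cd_mono ?_)
        rintro c ⟨hcK, hca⟩
        refine ⟨hcK, ?_⟩
        rcases hB.chain.total hcK.1 hd.1 with h | h
        · exact h
        · exact absurd (had.trans h) hca
    have haB := hfact a hag hax
    obtain ⟨d, hd, hda⟩ := h1 α κ E G hG K (fun c hc => hB.sub hc.1) hlarge a haB.1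
      (fun d hd h hh => (hd.2.1 h hh).trans (haB.2 h hh).symm)
    exact hd.2.2.1 hda
  · -- the right case
    obtain ⟨h, hh, hgh, hzh⟩ := hR z hz
    have hY := h3 α w hw κ hκ E G hG g hg h hh hgh
    have hfY := cd_image hw hκ _ f (fun y hy y' hy' => hB.anti y hy.1 y' hy'.1) hY
    refine hfY.trans (cd_mono ?_)
    rintro c ⟨b, hb, rfl⟩
    have hcC : f b ∈ C := hB.map b hb.1
    have hsame := hB.same b hb.1
    have hcg : f b ∈ g.carrier := (hsame g hg).2 hb.2.1
    have hch : f b ∉ h.carrier := by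
      intro hc
      have := (hsame h hh).1 hc
      exact lt_irrefl b (hb.2.2 b this)
    have := ((hB.sub hcC).2 h hh).resolve_left hch
    exact ⟨hcC, hcg, (this z hzh).le⟩

end Pool.Agent.Y585.SP
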