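import Pool.Agent.Y585.SP.C

/-!
# Shifts of the Liouville function over windows `(x / w, x]`
-/

set_option autoImplicit false

namespace Pool.Agent.Y585.SP

open Finset

/-- The Liouville function, with real values. -/
noncomputable def lr (n : ℕ) : ℝ := (-1) ^ ArithmeticFunction.cardFactors n

lemma lr_pm (n : ℕ) : lr n = 1 ∨ lr n = -1 := neg_one_pow_eq_or ℝ _

/-- The two-point theorem over windows. -/
def TwoPoint : Prop := ∀ h : ℕ, 1 ≤ h → ∀ ε : ℝ, 0 < ε → ∃ W₀ : ℕ, ∀ w x : ℕ, W₀ ≤ w → w ≤ x →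
  |∑ n ∈ Ioc (x / w) x, (1 / (n : ℝ)) * (lr n * lr (n + h))| ≤ ε * Real.log w

/-- The total mass of a window. -/
noncomputable def tm (w x : ℕ) : ℝ := ∑ n ∈ Ioc (x / w) x, 1 / (n : ℝ)

lemma tm_eq (w x : ℕ) : tm w x = (harmonic x : ℝ) - (harmonic (x / w) : ℝ) := by
  have h1 : x / w ≤ x := Nat.div_le_self _ _
  have e : ∀ N : ℕ, (harmonic N : ℝ) = ∑ n ∈ Ioc 0 N, 1 / (n : ℝ) := by
    intro N
    rw [harmonic_eq_sum_Icc]
    push_cast
    rw [show Icc 1 N = Ioc 0 N from rfl]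
    exact sum_congr rfl fun n _ => (one_div _).symm
  rw [e, e, tm, ← sum_Ioc_consecutive _ (Nat.zero_le _) h1]
  ring

lemma le_tm {w x : ℕ} (hw : 1 ≤ w) (hx : w ≤ x) : Real.log w - 1 ≤ tm w x := by
  rw [tm_eq]
  have h1 := log_add_one_le_harmonic x
  have h2 := harmonic_le_one_add_log (x / w)
  have hwr : (0 : ℝ) < w := by exact_mod_cast hw
  have hxr : (0 : ℝ) < x := by exact_mod_cast (by omega : 0 < x)
  have hd : 1 ≤ x / w := (Nat.one_le_div_iff hw).2 hx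
  have hdr : (0 : ℝ) < ((x / w : ℕ) : ℝ) := by exact_mod_cast hd
  have h3 : Real.log ((x / w : ℕ) : ℝ) ≤ Real.log x - Real.log w := by
    rw [← Real.log_div hxr.ne' hwr.ne']
    exact Real.log_le_log hdr Nat.cast_div_le
  have h4 : Real.log x ≤ Real.log ((x + 1 : ℕ) : ℝ) :=
    Real.log_le_log hxr (by push_cast; linarith)
  linarith

lemma shift_one (φ : ℕ → ℝ) (hφ : ∀ n, |φ n| ≤ 1) (y x : ℕ) (hyx : y ≤ x) :
    |∑ n ∈ Ioc y x, (1 / (n : ℝ)) * φ (n + 1) - ∑ n ∈ Ioc y x, (1 / (n : ℝ)) * φ n| ≤ 2 := by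
  have key : |(∑ n ∈ Ioc y x, (1 / (n : ℝ)) * φ (n + 1) - ∑ n ∈ Ioc y x, (1 / (n : ℝ)) * φ n) -
      (1 / ((x : ℝ) + 1)) * φ (x + 1) + (1 / ((y : ℝ) + 1)) * φ (y + 1)| ≤
      1 / ((y : ℝ) + 1) - 1 / ((x : ℝ) + 1) := by
    induction x, hyx using Nat.le_induction with
    | base => simp
    | succ x hx ih =>
      rw [sum_Ioc_succ_top (by omega), sum_Ioc_succ_top (by omega)]
      have hp : 0 ≤ 1 / ((x : ℝ) + 1) - 1 / ((x : ℝ) + 1 + 1) := by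
        rw [sub_nonneg]
        exact one_div_le_one_div_of_le (by positivity) (by linarith)
      push_cast
      have e : (∑ n ∈ Ioc y x, 1 / (n : ℝ) * φ (n + 1) + 1 / ((x : ℝ) + 1) * φ (x + 1 + 1) -
          (∑ n ∈ Ioc y x, 1 / (n : ℝ) * φ n + 1 / ((x : ℝ) + 1) * φ (x + 1))) -
          1 / ((x : ℝ) + 1 + 1) * φ (x + 1 + 1) + 1 / ((y : ℝ) + 1) * φ (y + 1) =
          ((∑ n ∈ Ioc y x, 1 / (n : ℝ) * φ (n + 1) - ∑ n ∈ Ioc y x, 1 / (n : ℝ) * φ n) -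
            1 / ((x : ℝ) + 1) * φ (x + 1) + 1 / ((y : ℝ) + 1) * φ (y + 1)) +
          (1 / ((x : ℝ) + 1) - 1 / ((x : ℝ) + 1 + 1)) * φ (x + 1 + 1) := by ring
      rw [e]
      have h2 : |(1 / ((x : ℝ) + 1) - 1 / ((x : ℝ) + 1 + 1)) * φ (x + 1 + 1)| ≤
          (1 / ((x : ℝ) + 1) - 1 / ((x : ℝ) + 1 + 1)) * 1 := by
        rw [abs_mul, abs_of_nonneg hp]
        exact mul_le_mul_of_nonneg_left (hφ _) hp
      refine (abs_add_le _ _).trans ((add_le_add ih h2).trans (le_of_eq ?_))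
      ring
  have hb : ∀ z : ℕ, |(1 / ((z : ℝ) + 1)) * φ (z + 1)| ≤ 1 / ((z : ℝ) + 1) := by
    intro z
    rw [abs_mul, abs_of_nonneg (by positivity : (0 : ℝ) ≤ 1 / ((z : ℝ) + 1))]
    calc _ ≤ 1 / ((z : ℝ) + 1) * 1 := mul_le_mul_of_nonneg_left (hφ _) (by positivity)
      _ = _ := mul_one _
  have h1 := hb x
  have h2 := hb y
  have h3 : 1 / ((y : ℝ) + 1) ≤ 1 := by
    rw [div_le_one (by positivity)]
    linarith [(Nat.cast_nonneg y : (0 : ℝ) ≤ y)]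
  rw [abs_le] at *
  constructor <;> linarith [key.1, key.2, h1.1, h1.2, h2.1, h2.2]

lemma shift_many (φ : ℕ → ℝ) (hφ : ∀ n, |φ n| ≤ 1) (y x : ℕ) (hyx : y ≤ x) (a : ℕ) :
    |∑ n ∈ Ioc y x, (1 / (n : ℝ)) * φ (n + a) - ∑ n ∈ Ioc y x, (1 / (n : ℝ)) * φ n| ≤ 2 * a := by
  induction a with
  | zero => simp
  | succ a ih =>
    have h1 := shift_one (fun n => φ (n + a)) (fun n => hφ _) y x hyx
    have e : ∀ n, φ (n + 1 + a) = φ (n + (a + 1)) := fun n => by rw [add_assoc, add_comm 1 a]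
    simp only [e] at h1
    have h2 := abs_add_le
      (∑ n ∈ Ioc y x, (1 / (n : ℝ)) * φ (n + (a + 1)) - ∑ n ∈ Ioc y x, (1 / (n : ℝ)) * φ (n + a))
      (∑ n ∈ Ioc y x, (1 / (n : ℝ)) * φ (n + a) - ∑ n ∈ Ioc y x, (1 / (n : ℝ)) * φ n)
    rw [sub_add_sub_cancel] at h2
    push_cast
    linarith

lemma exists_log (K : ℝ) : ∃ W : ℕ, 1 ≤ W ∧ ∀ w : ℕ, W ≤ w → K ≤ Real.log w := by
  obtain ⟨W, hW⟩ := exists_nat_ge (Real.exp K)
  refine ⟨W + 1, by omega, fun w hw => ?_⟩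
  have h1 : (W : ℝ) ≤ w := by exact_mod_cast (by omega : W ≤ w)
  rw [Real.le_log_iff_exp_le (by exact_mod_cast (by omega : 0 < w))]
  linarith

lemma tm_half {w x : ℕ} (hw : 1 ≤ w) (hx : w ≤ x) (hl : 2 ≤ Real.log w) :
    Real.log w / 2 ≤ tm w x := by
  have := le_tm hw hx
  linarith

lemma orth_pair (T : TwoPoint) {a b : ℕ} (hab : a < b) {η : ℝ} (hη : 0 < η) :
    ∃ W : ℕ, ∀ w x : ℕ, W ≤ w → w ≤ x →
      |∑ m ∈ Ioc (x / w) x, (1 / (m : ℝ)) * (lr (m + a) * lr (m + b))| ≤ η * tm w x := by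
  obtain ⟨W₀, hW₀⟩ := T (b - a) (by omega) (η / 4) (by positivity)
  obtain ⟨W₁, hW₁1, hW₁⟩ := exists_log (max 2 (8 * a / η))
  refine ⟨max W₀ W₁, fun w x hw hx => ?_⟩
  have hw0 : W₀ ≤ w := (le_max_left _ _).trans hw
  have hw1 : W₁ ≤ w := (le_max_right _ _).trans hw
  have hwpos : 1 ≤ w := hW₁1.trans hw1
  have hl := hW₁ w hw1
  have hl2 : 2 ≤ Real.log w := (le_max_left _ _).trans hl
  have hla : 8 * a / η ≤ Real.log w := (le_max_right _ _).trans hl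
  rw [div_le_iff₀ hη] at hla
  have h1 := hW₀ w x hw0 hx
  have h2 := shift_many (fun n => lr n * lr (n + (b - a))) (fun n => by
    rw [abs_mul]
    rcases lr_pm n with h | h <;> rcases lr_pm (n + (b - a)) with h' | h' <;> rw [h, h'] <;>
      norm_num) (x / w) x (Nat.div_le_self _ _) a
  have e : ∀ n, n + a + (b - a) = n + b := fun n => by omega
  simp only [e] at h2
  have h3 := tm_half hwpos hx hl2
  have h4 : η * (Real.log w / 2) ≤ η * tm w x := mul_le_mul_of_nonneg_left h3 hη.le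
  rw [abs_le] at *
  constructor <;> linarith [h1.1, h1.2, h2.1, h2.2]

theorem orth_win (T : TwoPoint) (A : Finset ℕ) {η : ℝ} (hη : 0 < η) :
    ∃ W : ℕ, ∀ w x : ℕ, W ≤ w → w ≤ x →
      Orth (Ioc (x / w) x) (fun m => 1 / (m : ℝ)) (fun a m => lr (m + a)) A
        (∑ m ∈ Ioc (x / w) x, 1 / (m : ℝ)) (η * ∑ m ∈ Ioc (x / w) x, 1 / (m : ℝ)) := by
  classical
  have h1 : ∀ p : ℕ × ℕ, ∃ W : ℕ, p.1 ≠ p.2 → ∀ w x : ℕ, W ≤ w → w ≤ x →
      |∑ m ∈ Ioc (x / w) x, (1 / (m : ℝ)) * (lr (m + p.1) * lr (m + p.2))| ≤ η * tm w x := by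
    rintro ⟨a, b⟩
    rcases lt_trichotomy a b with h | h | h
    · obtain ⟨W, hW⟩ := orth_pair T h hη
      exact ⟨W, fun _ => hW⟩
    · exact ⟨0, fun hne => absurd h hne⟩
    · obtain ⟨W, hW⟩ := orth_pair T h hη
      refine ⟨W, fun _ w x hw hx => ?_⟩
      have := hW w x hw hx
      refine le_trans (le_of_eq ?_) this
      congr 1
      exact sum_congr rfl fun m _ => by ring
  choose W hW using h1
  refine ⟨∑ p ∈ A ×ˢ A, W p, fun w x hw hx => ?_⟩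
  have hpos : ∀ m ∈ Ioc (x / w) x, (0 : ℝ) ≤ 1 / (m : ℝ) := fun m _ => by positivity
  refine ⟨fun a m => lr_pm _, hpos, rfl, ?_, ?_⟩
  · exact mul_nonneg hη.le (sum_nonneg hpos)
  · intro a ha b hb hab
    exact hW (a, b) hab w x ((single_le_sum (f := W) (fun p _ => Nat.zero_le _)
      (mem_product.2 ⟨ha, hb⟩)).trans hw) hx

end Pool.Agent.Y585.SP
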