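import Pool.Agent.Y585.SP.D

/-!
# Patterns of signs of the Liouville function along sets of shifts
-/

set_option autoImplicit false

namespace Pool.Agent.Y585.SP

open Finset Filter

/-- The Liouville function. -/
def lam (n : ℕ) : ℤ := (-1) ^ ArithmeticFunction.cardFactors n

lemma lam_cast (n : ℕ) : (lam n : ℝ) = lr n := by simp [lam, lr]

/-- `∑_{x/w < m ≤ x} g(m)/m`. -/
noncomputable def mass (w x : ℕ) (g : ℕ → ℝ) : ℝ := ∑ m ∈ Ioc (x / w) x, g m / m

/-- The part of this sum over the `m` such that `λ(m + h i) = ε i` for all `i`. -/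
noncomputable def patternMass (w x : ℕ) (g : ℕ → ℝ) {k : ℕ} (h : Fin k → ℕ) (ε : Fin k → ℤ) : ℝ :=
  ∑ m ∈ (Ioc (x / w) x).filter (fun m => ∀ i, lam (m + h i) = ε i), g m / m

lemma mass_eq (w x : ℕ) (g : ℕ → ℝ) : mass w x g = ∑ m ∈ Ioc (x / w) x, (1 / (m : ℝ)) * g m :=
  sum_congr rfl fun m _ => by ring

lemma mass_one (w x : ℕ) : mass w x 1 = ∑ m ∈ Ioc (x / w) x, 1 / (m : ℝ) :=
  sum_congr rfl fun m _ => by simp

lemma patternMass_eq (w x : ℕ) (g : ℕ → ℝ) {k : ℕ} (h : Fin k → ℕ) (ε : Fin k → ℤ) :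
    patternMass w x g h ε = ∑ m ∈ Ioc (x / w) x,
      (if ∀ i, lr (m + h i) = (ε i : ℝ) then (1 / (m : ℝ)) * g m else 0) := by
  unfold patternMass
  rw [sum_filter]
  refine sum_congr rfl fun m _ => ?_
  have e : (∀ i, lam (m + h i) = ε i) ↔ ∀ i, lr (m + h i) = (ε i : ℝ) := by
    refine forall_congr' fun i => ?_
    rw [← lam_cast]
    exact Int.cast_inj.symm
  by_cases hh : ∀ i, lam (m + h i) = ε i
  · rw [if_pos hh, if_pos (e.1 hh)]
    ring
  · rw [if_neg hh, if_neg fun h' => hh (e.2 h')]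

open Classical in
theorem part_one (T : TwoPoint) (k : ℕ) (δ : ℝ) (hδ : 0 < δ) (A : Finset ℕ) :
    ∃ W : ℕ, ∀ w x : ℕ, W ≤ w → w ≤ x → ∀ g : ℕ → ℝ, (∀ m, |g m| ≤ 1) →
      (((Fintype.piFinset fun _ : Fin k => A).filter fun h => ¬ ∀ ε : Fin k → ℤ,
        (∀ i, ε i = 1 ∨ ε i = -1) →
          |patternMass w x g h ε - (1 / 2) ^ k * mass w x g| ≤ δ * mass w x 1).card : ℝ) ≤
        2 ^ (k + 1) / δ ^ 2 * (A.card : ℝ) ^ (k - 1) := by
  obtain ⟨W, hW⟩ := orth_win T A (η := 1 / ((A.card : ℝ) + 1)) (by positivity)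
  obtain ⟨W₁, hW₁1, hW₁⟩ := exists_log 2
  refine ⟨max W W₁, fun w x hw hx g hg => ?_⟩
  have o := hW w x ((le_max_left _ _).trans hw) hx
  have hw1 : W₁ ≤ w := (le_max_right _ _).trans hw
  have hl := hW₁ w hw1
  have hV := tm_half (hW₁1.trans hw1) hx hl
  have hVpos : 0 < ∑ m ∈ Ioc (x / w) x, 1 / (m : ℝ) := by
    change 0 < tm w x
    linarith
  have hη : (A.card : ℝ) * (1 / ((A.card : ℝ) + 1) * ∑ m ∈ Ioc (x / w) x, 1 / (m : ℝ)) ≤
      ∑ m ∈ Ioc (x / w) x, 1 / (m : ℝ) := by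
    rw [← mul_assoc, mul_one_div]
    have : (A.card : ℝ) / ((A.card : ℝ) + 1) ≤ 1 := by
      rw [div_le_one (by positivity)]; linarith
    calc _ ≤ 1 * ∑ m ∈ Ioc (x / w) x, 1 / (m : ℝ) := mul_le_mul_of_nonneg_right this hVpos.le
      _ = _ := one_mul _
  have h1 := count_bad (k := k) o hVpos hη g hg hδ
  refine le_trans ?_ h1
  have : (((Fintype.piFinset fun _ : Fin k => A).filter fun h => ¬ ∀ ε : Fin k → ℤ,
        (∀ i, ε i = 1 ∨ ε i = -1) →
          |patternMass w x g h ε - (1 / 2) ^ k * mass w x g| ≤ δ * mass w x 1)) ⊆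
      ((Fintype.piFinset (fun _ : Fin k => A)).filter fun h =>
        ¬ Good (Ioc (x / w) x) (fun m => 1 / (m : ℝ)) (fun a m => lr (m + a)) g δ
          (∑ m ∈ Ioc (x / w) x, 1 / (m : ℝ)) h) := by
    intro h hh
    rw [mem_filter] at hh ⊢
    refine ⟨hh.1, fun hgood => hh.2 fun ε hε => ?_⟩
    have h2 := hgood (fun i => (ε i : ℝ)) (fun i => by
      rcases hε i with h | h <;> rw [h] <;> simp)
    rw [patternMass_eq, mass_eq, mass_one]
    convert h2 using 6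
  exact_mod_cast card_le_card this

lemma sqrt_aux {k n : ℕ} (hn : 1 ≤ n) {ρ V G : ℝ} (hρ : 0 < ρ) (hV : 0 ≤ V) (hG : 0 ≤ G)
    (hVG : ρ * V ≤ G) :
    (2 ^ k - 1) * Real.sqrt ((V + n * (1 / (2 ^ k * (n : ℝ)) * V)) * G / n) ≤
      (2 ^ k - 1 / 2) / Real.sqrt (ρ * n) * G := by
  have hn' : (0 : ℝ) < n := by exact_mod_cast hn
  have h2k : (1 : ℝ) ≤ 2 ^ k := one_le_pow₀ (by norm_num)
  obtain ⟨s, hs⟩ : ∃ s : ℝ, s = 1 / 2 ^ k := ⟨_, rfl⟩
  have hs0 : 0 ≤ s := by rw [hs]; positivity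
  have e1 : V + n * (1 / (2 ^ k * (n : ℝ)) * V) = V * (1 + s) := by
    rw [hs]
    field_simp
  have h1 : (V + n * (1 / (2 ^ k * (n : ℝ)) * V)) * G / n ≤
      ((1 + s / 2) / Real.sqrt (ρ * n) * G) ^ 2 := by
    rw [e1, mul_pow, div_pow, Real.sq_sqrt (by positivity)]
    have h2 : V ≤ G / ρ := by rw [le_div_iff₀ hρ]; linarith
    have h3 : V * (1 + s) * G / n ≤ (G / ρ) * (1 + s) * G / n := by
      apply div_le_div_of_nonneg_right _ hn'.le
      exact mul_le_mul_of_nonneg_right (mul_le_mul_of_nonneg_right h2 (by linarith)) hG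
    refine h3.trans ?_
    have e2 : (G / ρ) * (1 + s) * G / n = (1 + s) / (ρ * n) * G ^ 2 := by
      field_simp
    rw [e2]
    refine mul_le_mul_of_nonneg_right ?_ (sq_nonneg _)
    apply div_le_div_of_nonneg_right _ (by positivity)
    nlinarith
  have h2 := Real.sqrt_le_sqrt h1
  rw [Real.sqrt_sq (by positivity)] at h2
  calc (2 ^ k - 1) * Real.sqrt ((V + n * (1 / (2 ^ k * (n : ℝ)) * V)) * G / n)
      ≤ (2 ^ k - 1) * ((1 + s / 2) / Real.sqrt (ρ * n) * G) :=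
        mul_le_mul_of_nonneg_left h2 (by linarith)
    _ = ((2 ^ k - 1) * (1 + s / 2)) / Real.sqrt (ρ * n) * G := by ring
    _ ≤ _ := by
      refine mul_le_mul_of_nonneg_right ?_ hG
      apply div_le_div_of_nonneg_right _ (Real.sqrt_nonneg _)
      have e3 : 2 ^ k * s = 1 := by rw [hs]; field_simp
      nlinarith

theorem part_two (T : TwoPoint) (k : ℕ) (ρ : ℝ) (hρ : 0 < ρ) (A : Finset ℕ) (hA : A.Nonempty) :
    ∃ W : ℕ, ∀ w x : ℕ, W ≤ w → w ≤ x → ∀ D : Set ℕ,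
      ρ * mass w x 1 ≤ mass w x (D.indicator 1) →
      ∃ h : Fin k → ℕ, (∀ i, h i ∈ A) ∧ ∀ ε : Fin k → ℤ, (∀ i, ε i = 1 ∨ ε i = -1) →
        |patternMass w x (D.indicator 1) h ε - (1 / 2) ^ k * mass w x (D.indicator 1)| ≤
          (1 - (1 / 2) ^ (k + 1)) / Real.sqrt (ρ * A.card) * mass w x (D.indicator 1) := by
  classical
  have hn : 1 ≤ A.card := card_pos.2 hA
  have hn' : (0 : ℝ) < A.card := by exact_mod_cast hn
  obtain ⟨W, hW⟩ := orth_win T A (η := 1 / (2 ^ k * (A.card : ℝ))) (by positivity)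
  refine ⟨W, fun w x hw hx D hD => ?_⟩
  have o := hW w x hw hx
  obtain ⟨h, h1, h2⟩ := greedy o hA (D.indicator 1) k
  have hsq : ∀ m, ((D.indicator 1 m : ℝ)) ^ 2 = D.indicator 1 m := by
    intro m
    by_cases hm : m ∈ D
    · simp [Set.indicator_of_mem hm]
    · simp [Set.indicator_of_notMem hm]
  simp only [hsq] at h2
  rw [← mass_eq, ← mass_one] at h2
  have hG0 : 0 ≤ mass w x (D.indicator 1) := by
    unfold mass
    refine sum_nonneg fun m _ => ?_
    by_cases hm : m ∈ D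
    · simp [Set.indicator_of_mem hm]
    · simp [Set.indicator_of_notMem hm]
  have hV0 : 0 ≤ mass w x 1 := by
    rw [mass_one]
    exact sum_nonneg fun m _ => by positivity
  have h3 := sqrt_aux (k := k) hn hρ hV0 hG0 hD
  have h4 := h2.trans h3
  refine ⟨fun i => h i, fun i => h1 i i.2, fun ε hε => ?_⟩
  obtain ⟨e, he⟩ : ∃ e : ℕ → ℝ, ∀ i, e i = if hi : i < k then (ε ⟨i, hi⟩ : ℝ) else 1 :=
    ⟨_, fun _ => rfl⟩
  have hepm : ∀ i, e i = 1 ∨ e i = -1 := by
    intro i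
    rw [he]
    by_cases hi : i < k
    · rw [dif_pos hi]
      rcases hε ⟨i, hi⟩ with h | h <;> rw [h] <;> simp
    · rw [dif_neg hi]; simp
  have h5 := pattern_err (Ioc (x / w) x) (fun m => 1 / (m : ℝ)) (fun a m => lr (m + a)) o.pm
    (D.indicator 1) (range k) h e hepm
  rw [card_range, sum_filter, ← mass_eq] at h5
  have e6 : patternMass w x (D.indicator 1) (fun i : Fin k => h i) ε =
      ∑ m ∈ Ioc (x / w) x, (if ∀ i ∈ range k, lr (m + h i) = e i then
        (1 / (m : ℝ)) * D.indicator 1 m else 0) := by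
    rw [patternMass_eq]
    refine sum_congr rfl fun m _ => ?_
    have : (∀ i : Fin k, lr (m + h i) = (ε i : ℝ)) ↔ ∀ i ∈ range k, lr (m + h i) = e i := by
      constructor
      · intro hh i hi
        have hi' := mem_range.1 hi
        rw [he, dif_pos hi']
        exact hh ⟨i, hi'⟩
      · intro hh i
        have := hh i (mem_range.2 i.2)
        rw [he, dif_pos i.2] at this
        exact this
    exact if_congr this rfl rfl
  rw [e6]
  refine h5.trans ?_
  calc (1 / 2) ^ k * ∑ S ∈ (range k).powerset.erase ∅,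
        |cor (Ioc (x / w) x) (fun m => 1 / (m : ℝ)) (fun a m => lr (m + a)) (D.indicator 1) h S|
      ≤ (1 / 2) ^ k * ((2 ^ k - 1 / 2) / Real.sqrt (ρ * A.card) * mass w x (D.indicator 1)) :=
        mul_le_mul_of_nonneg_left h4 (by positivity)
    _ = ((1 / 2) ^ k * (2 ^ k - 1 / 2)) / Real.sqrt (ρ * A.card) *
        mass w x (D.indicator 1) := by ring
    _ = _ := by
      have : ((1 : ℝ) / 2) ^ k * (2 ^ k - 1 / 2) = 1 - (1 / 2) ^ (k + 1) := by
        rw [mul_sub, ← mul_pow, pow_succ]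
        norm_num
      rw [this]

end Pool.Agent.Y585.SP
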