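import Pool.Agent.Y585.SP.E

/-!
# Sets of shifts on which all patterns of signs occur
-/

set_option autoImplicit false

namespace Pool.Agent.Y585.SP

open Finset Filter

lemma mass_le_Icc (N : ℕ) (P : ℕ → Prop) [DecidablePred P] (g : ℕ → ℝ) (hg : ∀ m, 0 ≤ g m) :
    ∑ m ∈ (Ioc (N / N) N).filter P, g m / m ≤ ∑ m ∈ (Icc 1 N).filter P, g m / m := by
  refine sum_le_sum_of_subset_of_nonneg ?_ fun m _ _ => div_nonneg (hg m) (by positivity)
  intro m hm
  rw [mem_filter, mem_Ioc] at hm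
  rw [mem_filter, mem_Icc]
  exact ⟨⟨Nat.lt_of_le_of_lt (Nat.zero_le _) hm.1.1, hm.1.2⟩, hm.2⟩

lemma ind_nonneg (D : Set ℕ) (m : ℕ) : (0 : ℝ) ≤ D.indicator 1 m := by
  by_cases hm : m ∈ D
  · simp [Set.indicator_of_mem hm]
  · simp [Set.indicator_of_notMem hm]

lemma ind_le (D : Set ℕ) (m : ℕ) : (D.indicator 1 m : ℝ) ≤ 1 := by
  by_cases hm : m ∈ D
  · simp [Set.indicator_of_mem hm]
  · simp [Set.indicator_of_notMem hm]

theorem part_two' (T : TwoPoint) (k : ℕ) (A : Finset ℕ) (hA : 4 ^ k ≤ A.card) :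
    ∃ H ⊆ A, H.card = k ∧ ∃ᶠ N : ℕ in atTop, ∀ ε : ℕ → ℤ, (∀ a, ε a = 1 ∨ ε a = -1) →
      Real.log N / 4 ^ (k + 1) ≤
        ∑ m ∈ (Icc 1 N).filter (fun m => ∀ a ∈ H, lam (m + a) = ε a), 1 / (m : ℝ) := by
  classical
  have hn : 1 ≤ A.card := (Nat.one_le_pow _ _ (by norm_num)).trans hA
  obtain ⟨W, hW⟩ := part_two T k 1 one_pos A (card_pos.1 hn)
  obtain ⟨W₁, hW₁1, hW₁⟩ := exists_log 2
  -- what happens at a large scale
  have h1 : ∀ N, max W W₁ ≤ N → ∃ h ∈ Fintype.piFinset (fun _ : Fin k => A),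
      ∀ ε : Fin k → ℤ, (∀ i, ε i = 1 ∨ ε i = -1) →
        Real.log N / 4 ^ (k + 1) ≤
          ∑ m ∈ (Icc 1 N).filter (fun m => ∀ i, lam (m + h i) = ε i), 1 / (m : ℝ) := by
    intro N hN
    have hNW : W ≤ N := (le_max_left _ _).trans hN
    have hNW1 : W₁ ≤ N := (le_max_right _ _).trans hN
    obtain ⟨h, h2, h3⟩ := hW N N hNW le_rfl Set.univ (by
      rw [one_mul, Set.indicator_univ])
    refine ⟨h, Fintype.mem_piFinset.2 h2, fun ε hε => ?_⟩
    have h4 := h3 ε hε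
    rw [Set.indicator_univ] at h4
    have hl := hW₁ N hNW1
    have hV := tm_half (hW₁1.trans hNW1) le_rfl hl
    have hm1 : mass N N 1 = tm N N := mass_one N N
    have hs : (2 : ℝ) ^ k ≤ Real.sqrt (1 * A.card) := by
      apply Real.le_sqrt_of_sq_le
      have : ((4 ^ k : ℕ) : ℝ) ≤ A.card := by exact_mod_cast hA
      push_cast at this
      calc ((2 : ℝ) ^ k) ^ 2 = 4 ^ k := by rw [← pow_mul, mul_comm, pow_mul]; norm_num
        _ ≤ _ := by linarith
    have h2k : (0 : ℝ) < 2 ^ k := by positivity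
    have hhalf : ((1 : ℝ) / 2) ^ (k + 1) ≤ 1 := pow_le_one₀ (by norm_num) (by norm_num)
    have h5 : (1 - (1 / 2) ^ (k + 1)) / Real.sqrt (1 * A.card) ≤
        (1 - (1 / 2) ^ (k + 1)) / 2 ^ k :=
      div_le_div_of_nonneg_left (by linarith) h2k hs
    have hM0 : 0 ≤ mass N N 1 := by rw [hm1]; linarith
    have h6 := h4.trans (mul_le_mul_of_nonneg_right h5 hM0)
    have h7 : (1 / 2 : ℝ) ^ k * mass N N 1 - (1 - (1 / 2) ^ (k + 1)) / 2 ^ k * mass N N 1 ≤
        patternMass N N 1 h ε := by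
      rw [abs_le] at h6
      linarith [h6.1]
    have h8 : (1 / 2 : ℝ) ^ k * mass N N 1 - (1 - (1 / 2) ^ (k + 1)) / 2 ^ k * mass N N 1 =
        2 / 4 ^ (k + 1) * mass N N 1 := by
      have e : (1 / 2 : ℝ) ^ k - (1 - (1 / 2) ^ (k + 1)) / 2 ^ k = 2 / 4 ^ (k + 1) := by
        have e4 : (4 : ℝ) ^ (k + 1) = 2 ^ (k + 1) * 2 ^ (k + 1) := by
          rw [← mul_pow]; norm_num
        rw [e4, one_div_pow, one_div_pow, pow_succ]
        field_simp
        ring
      rw [← e]; ring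
    rw [h8] at h7
    have h9 : patternMass N N 1 h ε ≤
        ∑ m ∈ (Icc 1 N).filter (fun m => ∀ i, lam (m + h i) = ε i), 1 / (m : ℝ) := by
      have := mass_le_Icc N (fun m => ∀ i, lam (m + h i) = ε i) 1 (fun m => zero_le_one)
      simpa [patternMass] using this
    refine le_trans ?_ (h7.trans h9)
    have h10 : Real.log N / 4 ^ (k + 1) = 2 / 4 ^ (k + 1) * (Real.log N / 2) := by ring
    rw [h10]
    exact mul_le_mul_of_nonneg_left (by rw [hm1]; exact hV) (by positivity)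
  -- one tuple for infinitely many scales
  have h2 : ∃ h ∈ Fintype.piFinset (fun _ : Fin k => A), ∃ᶠ N : ℕ in atTop,
      ∀ ε : Fin k → ℤ, (∀ i, ε i = 1 ∨ ε i = -1) →
        Real.log N / 4 ^ (k + 1) ≤
          ∑ m ∈ (Icc 1 N).filter (fun m => ∀ i, lam (m + h i) = ε i), 1 / (m : ℝ) := by
    by_contra hcon
    push Not at hcon
    have h3 : ∀ᶠ N : ℕ in atTop, ∀ h ∈ Fintype.piFinset (fun _ : Fin k => A),
        ¬ ∀ ε : Fin k → ℤ, (∀ i, ε i = 1 ∨ ε i = -1) →
        Real.log N / 4 ^ (k + 1) ≤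
          ∑ m ∈ (Icc 1 N).filter (fun m => ∀ i, lam (m + h i) = ε i), 1 / (m : ℝ) := by
      rw [eventually_all_finset]
      intro h hh
      have h4 := hcon h hh
      refine h4.mono fun N hN => ?_
      obtain ⟨ε, hε, hlt⟩ := hN
      exact fun hall => absurd (hall ε hε) (not_le.2 hlt)
    obtain ⟨N, hN1, hN2⟩ := (h3.and (eventually_ge_atTop (max W W₁))).exists
    obtain ⟨h, hh, h5⟩ := h1 N hN2
    exact hN1 h hh h5
  obtain ⟨h, hh, hfreq⟩ := h2
  have hmem := Fintype.mem_piFinset.1 hh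
  -- the tuple is injective
  have hinj : Function.Injective h := by
    intro i j hij
    by_contra hne
    obtain ⟨N, hN1, hN2⟩ := (hfreq.and_eventually (eventually_ge_atTop 2)).exists
    have h3 := hN1 (fun l => if l = i then 1 else -1) (fun l => by
      by_cases hl : l = i <;> simp [hl])
    have h4 : (Icc 1 N).filter (fun m => ∀ l, lam (m + h l) = if l = i then 1 else -1) = ∅ := by
      rw [filter_eq_empty_iff]
      intro m _ hall
      have e1 := hall i
      have e2 := hall j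
      rw [if_pos rfl] at e1
      rw [if_neg (Ne.symm hne), ← hij, e1] at e2
      norm_num at e2
    rw [h4, sum_empty] at h3
    have h5 : 0 < Real.log N / 4 ^ (k + 1) := by
      apply div_pos (Real.log_pos (by exact_mod_cast (by omega : 1 < N))) (by positivity)
    linarith
  refine ⟨univ.image h, ?_, ?_, ?_⟩
  · intro a ha
    obtain ⟨i, _, rfl⟩ := mem_image.1 ha
    exact hmem i
  · rw [card_image_of_injective _ hinj, card_univ, Fintype.card_fin]
  · refine hfreq.mono fun N hN ε hε => ?_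
    have h3 := hN (fun i => ε (h i)) (fun i => hε _)
    refine h3.trans (le_of_eq ?_)
    congr 1
    refine filter_congr fun m _ => ?_
    simp

theorem part_three (T : TwoPoint) (A : Set ℕ) (hA : A.Infinite) (D : Set ℕ)
    [DecidablePred (· ∈ D)] (d : ℝ)
    (hd : 0 < d) (hD : ∃ᶠ N : ℕ in atTop, d * Real.log N ≤
      ∑ m ∈ (Icc 1 N).filter (· ∈ D), 1 / (m : ℝ)) (δ : ℝ) (hδ : 0 < δ) :
    ∃ h : ℕ → ℕ, StrictMono h ∧ (∀ i, h i ∈ A) ∧ ∀ k : ℕ, ∃ᶠ N : ℕ in atTop,
      ∀ ε : ℕ → ℤ, (∀ i, ε i = 1 ∨ ε i = -1) →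
        (1 - δ) * (d / 2 ^ k) * Real.log N ≤
          ∑ m ∈ (Icc 1 N).filter (fun m => m ∈ D ∧ ∀ i < k, lam (m + h i) = ε i),
            1 / (m : ℝ) := by
  classical
  obtain ⟨δ', hδ'⟩ : ∃ δ', δ' = min (δ / 2) (1 / 2) := ⟨_, rfl⟩
  have hδ'0 : 0 < δ' := by rw [hδ']; exact lt_min (by linarith) (by norm_num)
  have hδ'1 : δ' ≤ 1 / 2 := by rw [hδ']; exact min_le_right _ _
  have hδ'2 : δ' ≤ δ / 2 := by rw [hδ']; exact min_le_left _ _
  obtain ⟨W₂, hW₂1, hW₂⟩ := exists_log (max 2 (1 / (δ' * d)))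
  -- the scales
  obtain ⟨N₀, hN₀⟩ : ∃ N₀ : Set ℕ, N₀ = {N | W₂ ≤ N ∧ d * Real.log N ≤
      ∑ m ∈ (Icc 1 N).filter (· ∈ D), 1 / (m : ℝ)} := ⟨_, rfl⟩
  have hN₀inf : N₀.Infinite := by
    rw [hN₀, ← Nat.frequently_atTop_iff_infinite]
    have := hD.and_eventually (eventually_ge_atTop W₂)
    exact this.mono fun N hN => ⟨hN.2, hN.1⟩
  have hgD : ∀ N, tot2 (Ioc (N / N) N) (fun m => 1 / (m : ℝ)) (D.indicator 1) =
      mass N N (D.indicator 1) := by
    intro N
    unfold tot2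
    rw [mass_eq]
    refine sum_congr rfl fun m _ => ?_
    by_cases hm : m ∈ D
    · simp [Set.indicator_of_mem hm]
    · simp [Set.indicator_of_notMem hm]
  have hlow : ∀ N ∈ N₀, (1 - δ') * d * Real.log N ≤ mass N N (D.indicator 1) := by
    intro N hN
    rw [hN₀] at hN
    obtain ⟨h1, h2⟩ := hN
    have hN1 : 1 ≤ N := hW₂1.trans h1
    have hl := hW₂ N h1
    have hl1 : 1 / (δ' * d) ≤ Real.log N := (le_max_right _ _).trans hl
    rw [div_le_iff₀ (by positivity)] at hl1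
    have h3 : ∑ m ∈ (Icc 1 N).filter (· ∈ D), 1 / (m : ℝ) ≤
        1 + mass N N (D.indicator 1) := by
      rw [sum_filter, ← sum_erase_add _ _ (mem_Icc.2 ⟨le_rfl, hN1⟩ : 1 ∈ Icc 1 N)]
      have e1 : (Icc 1 N).erase 1 = Ioc (N / N) N := by
        rw [Nat.div_self (by omega)]
        ext m
        simp only [mem_erase, mem_Icc, mem_Ioc]
        omega
      rw [e1, add_comm]
      refine add_le_add ?_ (le_of_eq ?_)
      · split_ifs <;> simp
      · unfold mass
        refine sum_congr rfl fun m _ => ?_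
        by_cases hm : m ∈ D
        · simp [Set.indicator_of_mem hm, hm]
        · simp [Set.indicator_of_notMem hm, hm]
    have h4 : d * Real.log N ≤ 1 + mass N N (D.indicator 1) := h2.trans h3
    nlinarith
  have hup : ∀ N : ℕ, 1 ≤ N → ∑ m ∈ Ioc (N / N) N, 1 / (m : ℝ) ≤ Real.log N := by
    intro N hN
    have h1 : tm N N = (harmonic N : ℝ) - (harmonic (N / N) : ℝ) := tm_eq N N
    have h2 := harmonic_le_one_add_log N
    rw [Nat.div_self (by omega)] at h1
    have h3 : (harmonic 1 : ℝ) = 1 := by simp [harmonic]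
    rw [h3] at h1
    change tm N N ≤ _
    linarith
  obtain ⟨h, hmono, hA', hk⟩ := infinite_choice (I := fun N => Ioc (N / N) N)
    (v := fun m => 1 / (m : ℝ)) (x := fun a m => lr (m + a)) (g := D.indicator 1) (A := A)
    (N₀ := N₀) (δ := δ') (d := d / 2) hA hδ'0 (by linarith) hN₀inf
    (fun B η hη => by
      obtain ⟨W, hW⟩ := orth_win T B hη
      exact ⟨W, fun N hN => hW N N hN le_rfl⟩)
    (by
      obtain ⟨W, hW1, hW⟩ := exists_log 2
      refine ⟨W, fun N hN => ?_⟩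
      have := tm_half (hW1.trans hN) le_rfl (hW N hN)
      have h2 := hW N hN
      change 0 < tm N N
      linarith)
    (fun N hN => by
      rw [hgD]
      have h1 := hlow N hN
      have hN' := hN
      rw [hN₀] at hN'
      have hN1 : 1 ≤ N := hW₂1.trans hN'.1
      have h2 := hup N hN1
      have hl : 2 ≤ Real.log N := (le_max_left _ _).trans (hW₂ N hN'.1)
      have h3 : d / 2 * ∑ m ∈ Ioc (N / N) N, 1 / (m : ℝ) ≤ d / 2 * Real.log N :=
        mul_le_mul_of_nonneg_left h2 (by linarith)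
      refine h3.trans (le_trans ?_ h1)
      have : d / 2 ≤ (1 - δ') * d := by nlinarith
      exact mul_le_mul_of_nonneg_right this (by linarith))
  refine ⟨h, hmono, hA', fun k => ?_⟩
  obtain ⟨N₁, hN₁inf, hN₁sub, hN₁⟩ := hk k
  have hfr : ∃ᶠ N : ℕ in atTop, N ∈ N₁ := Nat.frequently_atTop_iff_infinite.2 hN₁inf
  refine hfr.mono fun N hN ε hε => ?_
  have h1 := hN₁ N hN
  have h2 := hlow N (hN₁sub hN)
  have hN' := hN₁sub hN
  rw [hN₀] at hN'
  have hl : 2 ≤ Real.log N := (le_max_left _ _).trans (hW₂ N hN'.1)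
  rw [hgD] at h1
  have hM0 : 0 ≤ mass N N (D.indicator 1) :=
    sum_nonneg fun m _ => div_nonneg (ind_nonneg D m) (by positivity)
  have hhalf : (0 : ℝ) ≤ (1 / 2) ^ k := by positivity
  have h3 : ∑ S ∈ (range k).powerset.erase ∅, |cor (Ioc (N / N) N) (fun m => 1 / (m : ℝ))
      (fun a m => lr (m + a)) (D.indicator 1) h S| ≤ δ' * mass N N (D.indicator 1) := by
    refine h1.trans (mul_le_mul_of_nonneg_right ?_ hM0)
    nlinarith
  have h4 := pattern_err (Ioc (N / N) N) (fun m => 1 / (m : ℝ)) (fun a m => lr (m + a))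
    (fun a m => lr_pm _) (D.indicator 1) (range k) h (fun i => (ε i : ℝ)) (fun i => by
      rcases hε i with h | h <;> rw [h] <;> simp)
  rw [card_range, ← mass_eq] at h4
  have h5 := h4.trans (mul_le_mul_of_nonneg_left h3 hhalf)
  have h6 : (1 / 2 : ℝ) ^ k * mass N N (D.indicator 1) -
      (1 / 2) ^ k * (δ' * mass N N (D.indicator 1)) ≤
      ∑ m ∈ (Ioc (N / N) N).filter (fun m => ∀ i ∈ range k, lr (m + h i) = (ε i : ℝ)),
        1 / (m : ℝ) * D.indicator 1 m := by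
    rw [abs_le] at h5
    linarith [h5.1]
  have h7 : ∑ m ∈ (Ioc (N / N) N).filter (fun m => ∀ i ∈ range k, lr (m + h i) = (ε i : ℝ)),
        1 / (m : ℝ) * D.indicator 1 m ≤
      ∑ m ∈ (Icc 1 N).filter (fun m => m ∈ D ∧ ∀ i < k, lam (m + h i) = ε i), 1 / (m : ℝ) := by
    rw [sum_filter, sum_filter]
    have e1 : ∀ m ∈ Ioc (N / N) N, (if ∀ i ∈ range k, lr (m + h i) = (ε i : ℝ) then
        1 / (m : ℝ) * D.indicator 1 m else 0) =
        if m ∈ D ∧ ∀ i < k, lam (m + h i) = ε i then 1 / (m : ℝ) else 0 := by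
      intro m _
      have e2 : (∀ i ∈ range k, lr (m + h i) = (ε i : ℝ)) ↔ ∀ i < k, lam (m + h i) = ε i := by
        refine forall_congr' fun i => ?_
        rw [mem_range, ← lam_cast, Int.cast_inj]
      by_cases hm : m ∈ D
      · by_cases hP : ∀ i < k, lam (m + h i) = ε i
        · rw [if_pos (e2.2 hP), if_pos ⟨hm, hP⟩, Set.indicator_of_mem hm]; simp
        · rw [if_neg fun hh => hP (e2.1 hh), if_neg fun hh => hP hh.2]
      · rw [if_neg (fun hh : m ∈ D ∧ _ => hm hh.1), Set.indicator_of_notMem hm]; simp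
    rw [sum_congr rfl e1]
    refine sum_le_sum_of_subset_of_nonneg ?_ fun m _ _ => ?_
    · intro m hm
      rw [mem_Ioc] at hm
      exact mem_Icc.2 ⟨Nat.lt_of_le_of_lt (Nat.zero_le _) hm.1, hm.2⟩
    · split_ifs <;> positivity
  refine le_trans ?_ (h6.trans h7)
  have h8 : (1 / 2 : ℝ) ^ k * mass N N (D.indicator 1) -
      (1 / 2) ^ k * (δ' * mass N N (D.indicator 1)) =
      (1 / 2) ^ k * ((1 - δ') * mass N N (D.indicator 1)) := by ring
  have h9 : (1 - δ) * (d / 2 ^ k) * Real.log N =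
      (1 / 2) ^ k * ((1 - δ) * d * Real.log N) := by
    rw [one_div_pow]; ring
  rw [h8, h9]
  refine mul_le_mul_of_nonneg_left ?_ hhalf
  have h10 : (1 - δ') * ((1 - δ') * d * Real.log N) ≤ (1 - δ') * mass N N (D.indicator 1) :=
    mul_le_mul_of_nonneg_left h2 (by linarith)
  refine le_trans ?_ h10
  have h11 : (1 - δ) ≤ (1 - δ') * (1 - δ') := by nlinarith
  have h12 : 0 ≤ d * Real.log N := by positivity
  calc (1 - δ) * d * Real.log N = (1 - δ) * (d * Real.log N) := by ring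
    _ ≤ (1 - δ') * (1 - δ') * (d * Real.log N) := mul_le_mul_of_nonneg_right h11 h12
    _ = _ := by ring

end Pool.Agent.Y585.SP
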