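import Pool.Agent.Y585.SP.Coi

set_option autoImplicit false

open Cardinal OrderDual

namespace Pool.Agent.Y585.SP

open Pool.Agent.Y666.SP

theorem t_KFREE (h1 : S_KMP) (h2 : S_KCOI) (h3 : S_DW) : S_KFREE := by
  classical
  intro α _ w hw κ hκ E G hG C f hB x hxE hxB
  by_contra hlt
  rw [not_le] at hlt
  set T : Set α := {c | c ∈ C ∧ ∀ z ∈ KBB G, f z = c → ¬ x ≤ z ∧ ¬ z ≤ x} with hT
  obtain ⟨g, hg, hxg, q, hq, hxq⟩ : ∃ g ∈ G, x ∉ g.carrier ∧ ∃ q ∈ g.carrier, ¬ x < q := by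
    by_contra hcon
    apply hxB
    refine ⟨hxE, fun g hg => ?_⟩
    by_contra h
    rw [not_or] at h
    apply hcon
    refine ⟨g, hg, h.1, ?_⟩
    by_contra h'
    apply h.2
    intro q hq
    by_contra h''
    exact h' ⟨q, hq, h''⟩
  -- the representatives
  have hz : ∀ c, (c ∈ C ∧ c ∈ g.carrier ∧ c ∉ T) →
      ∃ z, z ∈ KBB G ∧ z ∈ g.carrier ∧ f z = c ∧ x ≤ z := by
    rintro c ⟨hcC, hcg, hcT⟩
    by_contra hcon
    apply hcT
    refine ⟨hcC, fun z hz hfz => ?_⟩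
    have hzg : z ∈ g.carrier := (hB.same z hz g hg).1 (by rw [hfz]; exact hcg)
    refine ⟨fun h => hcon ⟨z, hz, hzg, hfz, h⟩, fun h => hxg (g.up z hzg x hxE h)⟩
  set A : Set α := {c | c ∈ C ∧ c ∈ g.carrier ∧ c ∉ T} with hA
  let zf : α → α := fun c => if h : c ∈ A then (hz c h).choose else c
  have hzf : ∀ c ∈ A, zf c ∈ KBB G ∧ zf c ∈ g.carrier ∧ f (zf c) = c ∧ x ≤ zf c := by
    intro c hc
    have e : zf c = (hz c hc).choose := dif_pos hc
    rw [e]
    exact (hz c hc).choose_spec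
  obtain ⟨col, hcol⟩ := h3 α w hw
  -- a good colour
  have hj : ∃ j : Fin w, ∀ z ∈ g.carrier, κ ≤ cd {c | c ∈ A ∧ c ≤ z ∧ col (zf c) = j} := by
    by_contra hcon
    have hbad : ∀ j : Fin w, ∃ z ∈ g.carrier, cd {c | c ∈ A ∧ c ≤ z ∧ col (zf c) = j} < κ := by
      intro j
      by_contra h
      apply hcon
      refine ⟨j, fun z hz => ?_⟩
      by_contra h'
      exact h ⟨z, hz, not_le.1 h'⟩
    choose zz hzz1 hzz2 using hbad
    have hlow : ∀ s : Finset (Fin w), ∃ z ∈ g.carrier, ∀ j ∈ s, z ≤ zz j := by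
      intro s
      induction s using Finset.induction_on with
      | empty => exact ⟨q, hq, fun j hj => absurd hj (Finset.notMem_empty j)⟩
      | insert a s _ ih =>
        obtain ⟨z, hz, hzs⟩ := ih
        obtain ⟨z', hz', h1', h2'⟩ := g.dir z hz (zz a) (hzz1 a)
        refine ⟨z', hz', fun j hj => ?_⟩
        rcases Finset.mem_insert.1 hj with e | e
        · rw [e]; exact h2'
        · exact h1'.trans (hzs j e)
    obtain ⟨z, hz, hzs⟩ := hlow Finset.univ
    have hbig := h2 α w hw κ hκ E G hG C f hB g hg z hz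
    have hsub : {c | c ∈ C ∧ c ∈ g.carrier ∧ c ≤ z} ⊆
        T ∪ ⋃ j ∈ (Finset.univ : Finset (Fin w)), {c | c ∈ A ∧ c ≤ zz j ∧ col (zf c) = j} := by
      rintro c ⟨hcC, hcg, hcz⟩
      by_cases hcT : c ∈ T
      · exact Or.inl hcT
      · right
        rw [Set.mem_iUnion₂]
        exact ⟨col (zf c), Finset.mem_univ _, ⟨hcC, hcg, hcT⟩,
          hcz.trans (hzs _ (Finset.mem_univ _)), rfl⟩
    have hU := cd_iUnion_lt hκ (fun j => {c | c ∈ A ∧ c ≤ zz j ∧ col (zf c) = j}) hzz2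
      Finset.univ
    exact absurd (hbig.trans (cd_mono hsub)) (not_le.2 (cd_union_lt hκ hlt hU))
  obtain ⟨j, hj⟩ := hj
  set Y : Set α := {y | ∃ c ∈ A, col (zf c) = j ∧ y = zf c} with hY
  have hYch : IsChain (· ≤ ·) Y := by
    rintro y ⟨c, hc, hcj, rfl⟩ y' ⟨c', hc', hcj', rfl⟩ _
    exact hcol _ _ (hcj.trans hcj'.symm)
  have hYB : Y ⊆ KBB G := by
    rintro y ⟨c, hc, _, rfl⟩; exact (hzf c hc).1
  have hYg : Y ⊆ g.carrier := by
    rintro y ⟨c, hc, _, rfl⟩; exact (hzf c hc).2.1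
  have hlarge : KLarge κ Y := by
    refine ⟨?_, hYch, ?_⟩
    · obtain ⟨c, hc⟩ := nonempty_of_cd hκ (hj q hq)
      exact ⟨zf c, c, hc.1, hc.2.2, rfl⟩
    · rintro y ⟨c, hc, hcj, rfl⟩
      have hbig := hj (zf c) (hzf c hc).2.1
      have himg : cd (zf '' {c' | c' ∈ A ∧ c' ≤ zf c ∧ col (zf c') = j})
          = cd {c' | c' ∈ A ∧ c' ≤ zf c ∧ col (zf c') = j} := by
        apply Cardinal.mk_image_eq_of_injOn
        intro a ha b hb hab
        rw [← (hzf a ha.1).2.2.1, ← (hzf b hb.1).2.2.1, hab]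
      rw [← himg] at hbig
      refine hbig.trans (cd_mono ?_)
      rintro y' ⟨c', hc', rfl⟩
      have hy' : zf c' ∈ Y := ⟨c', hc'.1, hc'.2.2, rfl⟩
      refine ⟨hy', ?_⟩
      rcases hYch.total hy' ⟨c, hc, hcj, rfl⟩ with h | h
      · exact h
      · rcases h.lt_or_eq with h' | h'
        · exfalso
          have hlt' : c' < zf c' := hc'.2.1.trans_lt h'
          have hc'B : c' ∈ KBB G := hB.sub hc'.1.1
          exact hB.anti c' hc'B (zf c') (hzf c' hc'.1).1
            ((hB.fix c' hc'.1.1).trans (hzf c' hc'.1).2.2.1.symm) hlt'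
        · exact h'.ge
  rcases h1 α κ E G hG g hg Y hYB hlarge hYg with ha | ⟨p, hp, hpY⟩
  · obtain ⟨y, hy, hyq⟩ := ha q hq
    obtain ⟨c, hc, _, rfl⟩ := hy
    have hxq' : x ≤ q := (hzf c hc).2.2.2.trans hyq
    rcases hxq'.lt_or_eq with h | h
    · exact hxq h
    · exact hxg (h ▸ hq)
  · obtain ⟨c, hc⟩ := nonempty_of_cd hκ (hj p hp)
    have hlt' : c < zf c := hc.2.1.trans_lt (hpY (zf c) ⟨c, hc.1, hc.2.2, rfl⟩)
    exact hB.anti c (hB.sub hc.1.1) (zf c) (hzf c hc.1).1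
      ((hB.fix c hc.1.1).trans (hzf c hc.1).2.2.1.symm) hlt'

theorem t_KRED (h1 : S_KFREE) (h2 : S_GREEDY) : S_KRED := by
  classical
  intro α _ w hw κ hκ E hE G hG C f hB
  let ι : Type := {x : α // x ∈ E ∧ x ∉ KBB G}
  let T : ι → Set α := fun i => {c | c ∈ C ∧ ∀ z ∈ KBB G, f z = c → ¬ i.1 ≤ z ∧ ¬ z ≤ i.1}
  have hT : ∀ i, κ ≤ cd (T i) := fun i =>
    h1 α w hw κ hκ E G hG C f hB i.1 i.2.1 i.2.2
  have hT2 : ∀ c, cd {i | c ∈ T i} ≤ κ := by
    intro c
    by_cases hc : c ∈ C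
    · have hcB : c ∈ KBB G := hB.sub hc
      refine le_trans ?_ (hE c hcB.1)
      refine Cardinal.mk_le_of_injective (f := fun i => ⟨i.1.1, i.1.2.1, ?_, ?_⟩) ?_
      · exact (i.2.2 c hcB (hB.fix c hc)).2
      · exact (i.2.2 c hcB (hB.fix c hc)).1
      · intro a b hab
        have := congrArg Subtype.val hab
        exact Subtype.ext (Subtype.ext this)
    · have h0 : {i | c ∈ T i} = ∅ := by
        ext i
        simp only [Set.mem_empty_iff_false, iff_false]
        intro hi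
        exact hc hi.1
      rw [h0]
      have : cd (∅ : Set ι) = 0 := Cardinal.mk_eq_zero _
      rw [this]
      exact zero_le
  obtain ⟨φ, hφ, hφT⟩ := h2 ι α κ T hκ hT hT2
  refine ⟨fun x => if hx : x ∈ KBB G then f x else
    if hE : x ∈ E then φ ⟨x, hE, hx⟩ else x, ?_, ?_⟩
  · refine ⟨fun c hc => (hB.sub hc).1, hB.chain, ?_, ?_, ?_⟩
    · intro x hx
      by_cases hxB : x ∈ KBB G
      · simp only [hxB, dif_pos]; exact hB.map x hxB
      · simp only [hxB, hx, dif_pos, dif_neg, not_false_eq_true]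
        exact (hφT ⟨x, hx, hxB⟩).1
    · intro c hc
      have hcB : c ∈ KBB G := hB.sub hc
      simp only [hcB, dif_pos]
      exact hB.fix c hc
    · intro x hx y hy hxy hlt
      by_cases hxB : x ∈ KBB G
      · by_cases hyB : y ∈ KBB G
        · simp only [hxB, hyB, dif_pos] at hxy
          exact hB.anti x hxB y hyB hxy hlt
        · simp only [hxB, hyB, hy, dif_pos, dif_neg, not_false_eq_true] at hxy
          have := (hφT ⟨y, hy, hyB⟩).2 x hxB hxy
          exact this.2 hlt.le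
      · by_cases hyB : y ∈ KBB G
        · simp only [hxB, hyB, hx, dif_pos, dif_neg, not_false_eq_true] at hxy
          have := (hφT ⟨x, hx, hxB⟩).2 y hyB hxy.symm
          exact this.1 hlt.le
        · simp only [hxB, hyB, hx, hy, dif_pos, dif_neg, not_false_eq_true] at hxy
          have h' := congrArg Subtype.val (hφ hxy)
          have h'' : x = y := h'
          exact lt_irrefl y (h'' ▸ hlt)
  · intro x hx
    simp only [hx, dif_pos]

end Pool.Agent.Y585.SP
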