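import Pool.Agent.Y955.CH.Win
import Pool.Agent.Y585.SP.F

/-!
# The two-point theorem over windows, from the library
-/

set_option autoImplicit false

namespace Pool.Agent.Y585.SP

open Finset

theorem twoPoint : TwoPoint := by
  intro h hh ε hε
  obtain ⟨W₀, hW₀⟩ := Pool.Agent.Y955.CH.tao_window (f := Pool.Agent.H376R2.MR.lam)
    Pool.Agent.TH823.MRS.lam_bdd
    (fun p m hp hpm => Pool.Agent.TH823.MRS.lam_flip p m hp hpm) Pool.Agent.TH823.MRS.expo_lam
    h hh ε hε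
  refine ⟨W₀, fun w x hw hx => ?_⟩
  have h1 := hW₀ w x hw hx
  have h2 : x / w ≤ x := Nat.div_le_self _ _
  have e : ∀ N : ℕ, Pool.Agent.TH833.BL.S (Pool.Agent.Y326.ps Pool.Agent.H376R2.MR.lam h) N =
      ∑ n ∈ Ioc 0 N, (1 / (n : ℝ)) * (lr n * lr (n + h)) := by
    intro N
    unfold Pool.Agent.TH833.BL.S Pool.Agent.Y326.ps Pool.Agent.H376R2.MR.lam lr
    rw [show Icc 1 N = Ioc 0 N from rfl]
    refine sum_congr rfl fun n _ => ?_
    push_cast
    rfl
  rw [e, e, ← sum_Ioc_consecutive _ (Nat.zero_le _) h2, add_sub_cancel_left] at h1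
  exact h1

end Pool.Agent.Y585.SP
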