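import Pool.Agent.Y842.EL.One
import Pool.Agent.Y585.SP.F

/-!
# Natural averages at almost all scales
-/

set_option autoImplicit false

namespace Pool.Agent.Y585.SP

open Finset Filter

/-- Logarithmic density zero. -/
def LogZero (F : Set ℕ) : Prop := Pool.Agent.Y958.U.LZ F

lemma logZero_of_LZ {F : Set ℕ} (hF : Pool.Agent.Y958.U.LZ F) : LogZero F := hF

/-- The near orthonormality for natural averages. -/
theorem orth_nat : ∃ F : Set ℕ, LogZero F ∧ ∀ (A : Finset ℕ) (η : ℝ), 0 < η →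
    ∃ N₀ : ℕ, ∀ N : ℕ, N₀ ≤ N → N ∉ F →
      Orth (range N) (fun _ => 1) (fun a m => lr (m + a)) A N (η * N) := by
  classical
  obtain ⟨F, hF, h⟩ := Pool.Agent.Y842.EL.per_sum
  refine ⟨F, logZero_of_LZ hF, fun A η hη => ?_⟩
  have h1 : ∀ p : ℕ × ℕ, ∃ N₀ : ℕ, p.1 ≠ p.2 → ∀ N : ℕ, N₀ ≤ N → N ∉ F →
      |∑ m ∈ range N, 1 * (lr (m + p.1) * lr (m + p.2))| ≤ η * N := by
    have h2 : ∀ a b : ℕ, a < b → ∃ N₀ : ℕ, ∀ N : ℕ, N₀ ≤ N → N ∉ F →
        |∑ m ∈ range N, 1 * (lr (m + a) * lr (m + b))| ≤ η * N := by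
      intro a b hab
      obtain ⟨N₀, hN₀⟩ := h (b - a) 1 a 1 (by omega) le_rfl le_rfl η hη
      refine ⟨N₀, fun N hN hNF => ?_⟩
      have h3 := hN₀ N hN hNF (fun _ => 1) (fun _ => by simp) (fun _ => rfl)
      refine le_trans (le_of_eq ?_) h3
      congr 1
      refine sum_congr rfl fun m _ => ?_
      unfold Pool.Agent.Y842.EL.yy Pool.Agent.H376R2.MR.lam lr
      rw [show 1 * m + a = m + a by ring, show 1 * (m + (b - a)) + a = m + b by omega]
      push_cast
      ring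
    rintro ⟨a, b⟩
    rcases lt_trichotomy a b with h | h | h
    · obtain ⟨W, hW⟩ := h2 a b h
      exact ⟨W, fun _ => hW⟩
    · exact ⟨0, fun hne => absurd h hne⟩
    · obtain ⟨W, hW⟩ := h2 b a h
      refine ⟨W, fun _ N hN hNF => ?_⟩
      have := hW N hN hNF
      refine le_trans (le_of_eq ?_) this
      congr 1
      exact sum_congr rfl fun m _ => by ring
  choose W hW using h1
  refine ⟨∑ p ∈ A ×ˢ A, W p, fun N hN hNF => ⟨fun a m => lr_pm _, fun m _ => zero_le_one, by simp,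
    by positivity, ?_⟩⟩
  intro a ha b hb hab
  exact hW (a, b) hab N ((single_le_sum (f := W) (fun p _ => Nat.zero_le _)
    (mem_product.2 ⟨ha, hb⟩)).trans hN) hNF

open Classical in
theorem part_nat : ∃ F : Set ℕ, LogZero F ∧ ∀ (k : ℕ) (δ : ℝ), 0 < δ → ∀ A : Finset ℕ, ∃ N₀ : ℕ,
    ∀ N : ℕ, N₀ ≤ N → N ∉ F → ∀ g : ℕ → ℝ, (∀ m, |g m| ≤ 1) →
      (((Fintype.piFinset fun _ : Fin k => A).filter fun h => ¬ ∀ ε : Fin k → ℤ,
        (∀ i, ε i = 1 ∨ ε i = -1) →
          |∑ m ∈ (range N).filter (fun m => ∀ i, lam (m + h i) = ε i), g m -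
            (1 / 2) ^ k * ∑ m ∈ range N, g m| ≤ δ * N).card : ℝ) ≤
        2 ^ (k + 1) / δ ^ 2 * (A.card : ℝ) ^ (k - 1) := by
  obtain ⟨F, hF, h⟩ := orth_nat
  refine ⟨F, hF, fun k δ hδ A => ?_⟩
  obtain ⟨W, hW⟩ := h A (1 / ((A.card : ℝ) + 1)) (by positivity)
  refine ⟨max W 1, fun N hN hNF g hg => ?_⟩
  have o := hW N ((le_max_left _ _).trans hN) hNF
  have hN1 : 1 ≤ N := (le_max_right _ _).trans hN
  have hVpos : (0 : ℝ) < N := by exact_mod_cast hN1
  have hη : (A.card : ℝ) * (1 / ((A.card : ℝ) + 1) * (N : ℝ)) ≤ N := by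
    rw [← mul_assoc, mul_one_div]
    have : (A.card : ℝ) / ((A.card : ℝ) + 1) ≤ 1 := by
      rw [div_le_one (by positivity)]; linarith
    calc _ ≤ 1 * (N : ℝ) := mul_le_mul_of_nonneg_right this hVpos.le
      _ = _ := one_mul _
  have h1 := count_bad (k := k) o hVpos hη g hg hδ
  refine le_trans ?_ h1
  have : (((Fintype.piFinset fun _ : Fin k => A).filter fun h => ¬ ∀ ε : Fin k → ℤ,
        (∀ i, ε i = 1 ∨ ε i = -1) →
          |∑ m ∈ (range N).filter (fun m => ∀ i, lam (m + h i) = ε i), g m -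
            (1 / 2) ^ k * ∑ m ∈ range N, g m| ≤ δ * N)) ⊆
      ((Fintype.piFinset (fun _ : Fin k => A)).filter fun h =>
        ¬ Good (range N) (fun _ => 1) (fun a m => lr (m + a)) g δ (N : ℝ) h) := by
    intro h hh
    rw [mem_filter] at hh ⊢
    refine ⟨hh.1, fun hgood => hh.2 fun ε hε => ?_⟩
    have h2 := hgood (fun i => (ε i : ℝ)) (fun i => by
      rcases hε i with h | h <;> rw [h] <;> simp)
    have e1 : ∑ m ∈ (range N).filter (fun m => ∀ i, lam (m + h i) = ε i), g m =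
        ∑ m ∈ range N, (if ∀ i, lr (m + h i) = (ε i : ℝ) then 1 * g m else 0) := by
      rw [sum_filter]
      refine sum_congr rfl fun m _ => ?_
      have e : (∀ i, lam (m + h i) = ε i) ↔ ∀ i, lr (m + h i) = (ε i : ℝ) := by
        refine forall_congr' fun i => ?_
        rw [← lam_cast]
        exact Int.cast_inj.symm
      by_cases hh : ∀ i, lam (m + h i) = ε i
      · rw [if_pos hh, if_pos (e.1 hh), one_mul]
      · rw [if_neg hh, if_neg fun h' => hh (e.2 h')]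
    have e2 : ∑ m ∈ range N, g m = ∑ m ∈ range N, 1 * g m :=
      sum_congr rfl fun m _ => (one_mul _).symm
    rw [e1, e2]
    convert h2 using 6
  exact_mod_cast card_le_card this

end Pool.Agent.Y585.SP
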