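import Pool.Agent.Y585.SP.H

/-!
# Linear forms, natural averages at almost all scales
-/

set_option autoImplicit false

namespace Pool.Agent.Y585.SP

open Finset Filter

/-- one class modulo `q` -/
lemma sum_one_class (q c N : ℕ) (hq : 1 ≤ q) (F : ℕ → ℝ) :
    ∑ m ∈ range (q * N + (c + 1)), (if m % q = c % q then F m else 0) =
      ∑ m ∈ range (c + 1), (if m % q = c % q then F m else 0) +
        ∑ n ∈ Icc 1 N, F (q * n + c) := by
  induction N with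
  | zero => simp
  | succ N ih =>
    have e1 : q * (N + 1) + (c + 1) = (q * N + (c + 1)) + q := by ring
    rw [e1, sum_range_add, ih, sum_Icc_succ_top (by omega), add_assoc]
    congr 1
    congr 1
    have e2 : ∀ i ∈ range q, (if (q * N + (c + 1) + i) % q = c % q then
        F (q * N + (c + 1) + i) else 0) = if i = q - 1 then F (q * (N + 1) + c) else 0 := by
      intro i hi
      have hi' := mem_range.1 hi
      by_cases h : i = q - 1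
      · have e3 : q * N + (c + 1) + i = c + q * (N + 1) := by
          rw [h, mul_add, mul_one]; omega
        rw [if_pos h, e3, Nat.add_mul_mod_self_left, if_pos rfl, add_comm c]
      · rw [if_neg h, if_neg]
        intro h4
        apply h
        have h5 : (c + (i + 1)) ≡ c + 0 [MOD q] := by
          have e4 : q * N + (c + 1) + i = (c + (i + 1)) + q * N := by ring
          rw [e4, Nat.add_mul_mod_self_left] at h4
          exact h4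
        have h6 : i + 1 ≡ 0 [MOD q] := Nat.ModEq.add_left_cancel' c h5
        have h7 : q ∣ i + 1 := (Nat.modEq_zero_iff_dvd).1 h6
        have h8 := Nat.le_of_dvd (by omega) h7
        omega
    rw [sum_congr rfl e2, sum_ite_eq' (range q) (q - 1), if_pos (mem_range.2 (by omega))]

lemma lr_mul {a b : ℕ} (ha : a ≠ 0) (hb : b ≠ 0) : lr (a * b) = lr a * lr b := by
  unfold lr
  rw [ArithmeticFunction.cardFactors_mul ha hb, pow_add]

lemma lr_abs (n : ℕ) : |lr n| = 1 := by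
  rcases lr_pm n with h | h <;> rw [h] <;> simp

lemma lr_sq (n : ℕ) : lr n * lr n = 1 := by
  rcases lr_pm n with h | h <;> rw [h] <;> norm_num

/-- Two linear forms which are not proportional. -/
theorem pair_forms : ∃ F : Set ℕ, LogZero F ∧ ∀ a₁ b₁ a₂ b₂ : ℕ, 1 ≤ a₁ → 1 ≤ a₂ →
    a₂ * b₁ < a₁ * b₂ → ∀ ε : ℝ, 0 < ε → ∃ N₀ : ℕ, ∀ N : ℕ, N₀ ≤ N → N ∉ F →
      |∑ n ∈ Icc 1 N, lr (a₁ * n + b₁) * lr (a₂ * n + b₂)| ≤ ε * N := by
  obtain ⟨F, hF, h⟩ := Pool.Agent.Y842.EL.one_set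
  refine ⟨F, logZero_of_LZ hF, fun a₁ b₁ a₂ b₂ h1 h2 hlt ε hε => ?_⟩
  have hq : 1 ≤ a₁ * a₂ := Nat.mul_pos h1 h2
  obtain ⟨N₀, hN₀⟩ := h (a₁ * b₂ - a₂ * b₁) (a₁ * a₂) ((a₂ * b₁) % (a₁ * a₂)) (a₁ * a₂)
    (a₂ * b₁ + 1) (by omega) hq hq (ε / 2) (by positivity)
  obtain ⟨N₁, hN₁⟩ := exists_nat_ge (2 * (a₂ * b₁ + 1 : ℝ) / ε)
  refine ⟨max N₀ N₁, fun N hN hNF => ?_⟩
  have h3 := hN₀ N ((le_max_left _ _).trans hN) hNF
  unfold Pool.Agent.Y842.EL.tw at h3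
  have e1 : ∀ m ∈ range (a₁ * a₂ * N + (a₂ * b₁ + 1)),
      (if m % (a₁ * a₂) = (a₂ * b₁) % (a₁ * a₂) then (1 : ℝ) else 0) *
        Pool.Agent.H376R2.MR.lam m * Pool.Agent.H376R2.MR.lam (m + (a₁ * b₂ - a₂ * b₁)) =
      if m % (a₁ * a₂) = (a₂ * b₁) % (a₁ * a₂) then
        lr m * lr (m + (a₁ * b₂ - a₂ * b₁)) else 0 := by
    intro m _
    unfold Pool.Agent.H376R2.MR.lam lr
    split_ifs <;> simp
  rw [sum_congr rfl e1, sum_one_class _ _ _ hq (fun m => lr m * lr (m + (a₁ * b₂ - a₂ * b₁)))] at h3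
  have e2 : ∑ n ∈ Icc 1 N, lr (a₁ * a₂ * n + a₂ * b₁) *
      lr (a₁ * a₂ * n + a₂ * b₁ + (a₁ * b₂ - a₂ * b₁)) =
      lr a₁ * lr a₂ * ∑ n ∈ Icc 1 N, lr (a₁ * n + b₁) * lr (a₂ * n + b₂) := by
    rw [mul_sum]
    refine sum_congr rfl fun n hn => ?_
    have hn1 : 1 ≤ n := (mem_Icc.1 hn).1
    have p1 : 1 ≤ a₁ * n := Nat.mul_pos h1 hn1
    have p2 : 1 ≤ a₂ * n := Nat.mul_pos h2 hn1
    have e3 : a₁ * a₂ * n + a₂ * b₁ = a₂ * (a₁ * n + b₁) := by ring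
    have e4 : a₁ * a₂ * n + a₂ * b₁ + (a₁ * b₂ - a₂ * b₁) = a₁ * (a₂ * n + b₂) := by
      have : a₁ * (a₂ * n + b₂) = a₁ * a₂ * n + a₁ * b₂ := by ring
      omega
    rw [e4, e3, lr_mul (by omega) (by omega), lr_mul (by omega) (by omega)]
    ring
  rw [e2] at h3
  have h4 : |∑ m ∈ range (a₂ * b₁ + 1), (if m % (a₁ * a₂) = (a₂ * b₁) % (a₁ * a₂) then
      lr m * lr (m + (a₁ * b₂ - a₂ * b₁)) else 0)| ≤ a₂ * b₁ + 1 := by
    refine (abs_sum_le_sum_abs _ _).trans ?_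
    have : ∀ m ∈ range (a₂ * b₁ + 1), |(if m % (a₁ * a₂) = (a₂ * b₁) % (a₁ * a₂) then
        lr m * lr (m + (a₁ * b₂ - a₂ * b₁)) else 0)| ≤ (1 : ℝ) := by
      intro m _
      split_ifs
      · rw [abs_mul, lr_abs, lr_abs, one_mul]
      · simp
    refine (sum_le_sum this).trans ?_
    rw [sum_const, card_range, nsmul_eq_mul, mul_one]
    push_cast
    exact le_rfl
  have h5 : |lr a₁ * lr a₂ * ∑ n ∈ Icc 1 N, lr (a₁ * n + b₁) * lr (a₂ * n + b₂)| =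
      |∑ n ∈ Icc 1 N, lr (a₁ * n + b₁) * lr (a₂ * n + b₂)| := by
    rw [abs_mul, abs_mul, lr_abs, lr_abs, one_mul, one_mul]
  rw [← h5]
  have h6 : 2 * (a₂ * b₁ + 1 : ℝ) / ε ≤ N :=
    hN₁.trans (by exact_mod_cast (le_max_right _ _).trans hN)
  rw [div_le_iff₀ hε] at h6
  rw [abs_le] at *
  constructor <;> linarith [h3.1, h3.2, h4.1, h4.2]

/-- The near orthonormality of the forms. -/
theorem orth_forms : ∃ F : Set ℕ, LogZero F ∧ ∀ A : Finset (ℕ × ℕ), (∀ p ∈ A, 1 ≤ p.1) →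
    (∀ p ∈ A, ∀ q ∈ A, p ≠ q → p.1 * q.2 ≠ q.1 * p.2) → ∀ η : ℝ, 0 < η →
    ∃ N₀ : ℕ, ∀ N : ℕ, N₀ ≤ N → N ∉ F →
      Orth (Icc 1 N) (fun _ => 1) (fun (p : ℕ × ℕ) m => lr (p.1 * m + p.2)) A N (η * N) := by
  classical
  obtain ⟨F, hF, h⟩ := pair_forms
  refine ⟨F, hF, fun A hA hA' η hη => ?_⟩
  have h1 : ∀ t : (ℕ × ℕ) × (ℕ × ℕ), ∃ N₀ : ℕ, 1 ≤ t.1.1 → 1 ≤ t.2.1 →
      t.1.1 * t.2.2 ≠ t.2.1 * t.1.2 → ∀ N : ℕ, N₀ ≤ N → N ∉ F →
      |∑ m ∈ Icc 1 N, 1 * (lr (t.1.1 * m + t.1.2) * lr (t.2.1 * m + t.2.2))| ≤ η * N := by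
    rintro ⟨⟨a₁, b₁⟩, ⟨a₂, b₂⟩⟩
    by_cases h1 : 1 ≤ a₁
    · by_cases h2 : 1 ≤ a₂
      · rcases lt_trichotomy (a₂ * b₁) (a₁ * b₂) with hlt | heq | hlt
        · obtain ⟨W, hW⟩ := h a₁ b₁ a₂ b₂ h1 h2 hlt η hη
          refine ⟨W, fun _ _ _ N hN hNF => ?_⟩
          refine le_trans (le_of_eq ?_) (hW N hN hNF)
          congr 1
          exact sum_congr rfl fun m _ => one_mul _
        · exact ⟨0, fun _ _ hne => absurd heq.symm hne⟩
        · obtain ⟨W, hW⟩ := h a₂ b₂ a₁ b₁ h2 h1 hlt η hη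
          refine ⟨W, fun _ _ _ N hN hNF => ?_⟩
          refine le_trans (le_of_eq ?_) (hW N hN hNF)
          congr 1
          exact sum_congr rfl fun m _ => by ring
      · exact ⟨0, fun _ h3 => absurd h3 h2⟩
    · exact ⟨0, fun h3 => absurd h3 h1⟩
  choose W hW using h1
  refine ⟨∑ t ∈ A ×ˢ A, W t, fun N hN hNF => ⟨fun a m => lr_pm _, fun m _ => zero_le_one, by simp,
    by positivity, ?_⟩⟩
  intro p hp q hq hpq
  exact hW (p, q) (hA p hp) (hA q hq) (hA' p hp q hq hpq) N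
    ((single_le_sum (f := W) (fun p _ => Nat.zero_le _) (mem_product.2 ⟨hp, hq⟩)).trans hN) hNF

end Pool.Agent.Y585.SP
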